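import Pool.Agent.Run7.h843.P21.Defs

/-!
# `X_0(21)`: the forms and the cusps as factorizations (`S_C1A`)
-/

set_option autoImplicit false

namespace Pool.Agent.Run7.h135.P21

open Finset Pool.Agent.Run7.h843.P21
open Pool.Agent.N969.P15 (un)

/-- positive solutions of `a Y + a' X = N` -/
def QQ (N : ℕ) : Finset (ℕ × ℕ × ℕ × ℕ) :=
  (range (N + 1) ×ˢ range (N + 1) ×ˢ range (N + 1) ×ˢ range (N + 1)).filter fun m =>
    0 < m.1 ∧ 0 < m.2.1 ∧ 0 < m.2.2.1 ∧ 0 < m.2.2.2 ∧ 7 ∣ m.1 ∧ 3 ∣ m.2.1 ∧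
    m.1 * m.2.2.2 + m.2.1 * m.2.2.1 = N

/-- the congruences at the cusp `u / n` -/
def Cd (n u : ℕ) (m : ℕ × ℕ × ℕ × ℕ) : Prop :=
  (n : ℤ) ∣ (m.1 : ℤ) * (u : ℤ) + (m.2.2.1 : ℤ) ∧ (n : ℤ) ∣ (m.2.1 : ℤ) * (u : ℤ) - (m.2.2.2 : ℤ)

instance (n u : ℕ) (m : ℕ × ℕ × ℕ × ℕ) : Decidable (Cd n u m) := by
  unfold Cd; infer_instance

/-- the matrices of determinant `N` at the cusp -/
def MM (n N u : ℕ) : Finset (ℕ × ℕ × ℕ × ℕ) := (QQ N).filter (Cd n u)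

theorem mem_QQ {N : ℕ} {m : ℕ × ℕ × ℕ × ℕ} : m ∈ QQ N ↔ 0 < m.1 ∧ 0 < m.2.1 ∧ 0 < m.2.2.1 ∧
    0 < m.2.2.2 ∧ 7 ∣ m.1 ∧ 3 ∣ m.2.1 ∧ m.1 * m.2.2.2 + m.2.1 * m.2.2.1 = N := by
  rw [QQ, mem_filter]
  constructor
  · exact fun h => h.2
  · intro h
    refine ⟨?_, h⟩
    obtain ⟨h1, h2, h3, h4, -, -, h7⟩ := h
    simp only [mem_product, mem_range]
    have e1 : m.1 ≤ m.1 * m.2.2.2 := Nat.le_mul_of_pos_right _ h4
    have e2 : m.2.2.2 ≤ m.1 * m.2.2.2 := Nat.le_mul_of_pos_left _ h1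
    have e3 : m.2.1 ≤ m.2.1 * m.2.2.1 := Nat.le_mul_of_pos_right _ h3
    have e4 : m.2.2.1 ≤ m.2.1 * m.2.2.1 := Nat.le_mul_of_pos_left _ h2
    omega

theorem sum_QQ (N : ℕ) (h : ℕ → ℕ → ℕ → ℕ → ℤ) :
    ∑ T ∈ (range N).filter (fun T => 3 ∣ T ∧ 7 ∣ N - T),
      ∑ a ∈ (N - T).divisors.filter (7 ∣ ·), ∑ a' ∈ T.divisors.filter (3 ∣ ·),
        h a a' (T / a') ((N - T) / a) =
      ∑ m ∈ QQ N, h m.1 m.2.1 m.2.2.1 m.2.2.2 := by
  rw [sum_sigma', sum_sigma']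
  refine sum_bij' (fun x _ => (x.1.2, x.2, x.1.1 / x.2, (N - x.1.1) / x.1.2))
    (fun m _ => ⟨⟨m.2.1 * m.2.2.1, m.1⟩, m.2.1⟩) ?_ ?_ ?_ ?_ ?_
  · rintro ⟨⟨T, a⟩, a'⟩ hx
    simp only [mem_sigma, mem_filter, mem_range, Nat.mem_divisors] at hx
    obtain ⟨⟨⟨h1, h2, h3⟩, ⟨h4, h5⟩, h6⟩, ⟨h7, h8⟩, h9⟩ := hx
    rw [mem_QQ]
    have p1 : 0 < a := Nat.pos_of_dvd_of_pos h4 (Nat.pos_of_ne_zero h5)
    have p2 : 0 < a' := Nat.pos_of_dvd_of_pos h7 (Nat.pos_of_ne_zero h8)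
    refine ⟨p1, p2, Nat.div_pos (Nat.le_of_dvd (Nat.pos_of_ne_zero h8) h7) p2,
      Nat.div_pos (Nat.le_of_dvd (Nat.pos_of_ne_zero h5) h4) p1, h6, h9, ?_⟩
    simp only
    rw [Nat.mul_div_cancel' h4, Nat.mul_div_cancel' h7]
    omega
  · rintro ⟨a, a', X, Y⟩ hm
    rw [mem_QQ] at hm
    obtain ⟨h1, h2, h3, h4, h5, h6, h7⟩ := hm
    simp only at h1 h2 h3 h4 h5 h6 h7
    simp only [mem_sigma, mem_filter, mem_range, Nat.mem_divisors]
    have e1 : N - a' * X = a * Y := by omega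
    have p1 : 0 < a * Y := Nat.mul_pos h1 h4
    have p2 : 0 < a' * X := Nat.mul_pos h2 h3
    rw [e1]
    refine ⟨⟨⟨by omega, Dvd.dvd.mul_right h6 _, Dvd.dvd.mul_right h5 _⟩,
      ⟨Dvd.intro _ rfl, p1.ne'⟩, h5⟩, ⟨Dvd.intro _ rfl, p2.ne'⟩, h6⟩
  · rintro ⟨⟨T, a⟩, a'⟩ hx
    simp only [mem_sigma, mem_filter, mem_range, Nat.mem_divisors] at hx
    obtain ⟨⟨⟨h1, h2, h3⟩, ⟨h4, h5⟩, h6⟩, ⟨h7, h8⟩, h9⟩ := hx
    simp only
    rw [Nat.mul_div_cancel' h7]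
  · rintro ⟨a, a', X, Y⟩ hm
    rw [mem_QQ] at hm
    obtain ⟨h1, h2, h3, h4, h5, h6, h7⟩ := hm
    simp only at h1 h2 h3 h4 h5 h6 h7
    simp only
    have e1 : N - a' * X = a * Y := by omega
    rw [e1, Nat.mul_div_cancel_left _ h1, Nat.mul_div_cancel_left _ h2]
  · rintro ⟨⟨T, a⟩, a'⟩ hx
    rfl

theorem WU_eq (n N : ℕ) : WU n N = ∑ u ∈ un n, jacobiSym u n * (MM n N u).card := by
  have h1 := sum_QQ N fun a a' X Y => ∑ u ∈ (un n).filter (fun u : ℕ =>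
    (n : ℤ) ∣ (a : ℤ) * (u : ℤ) + (X : ℤ) ∧ (n : ℤ) ∣ (a' : ℤ) * (u : ℤ) - (Y : ℤ)), jacobiSym u n
  rw [WU, h1]
  have h2 : ∀ m ∈ QQ N, (∑ u ∈ (un n).filter (fun u : ℕ =>
      (n : ℤ) ∣ (m.1 : ℤ) * (u : ℤ) + (m.2.2.1 : ℤ) ∧
      (n : ℤ) ∣ (m.2.1 : ℤ) * (u : ℤ) - (m.2.2.2 : ℤ)), jacobiSym u n) =
      ∑ u ∈ un n, if Cd n u m then jacobiSym u n else 0 := by
    intro m _
    rw [sum_filter]
    rfl
  rw [sum_congr rfl h2, sum_comm]
  apply sum_congr rfl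
  intro u _
  rw [← sum_filter, sum_const, nsmul_eq_mul, mul_comm]
  rfl

/-! ### the imprimitive matrices -/

theorem card_E1 {n : ℕ} (hn : n % 2 = 1) (u : ℕ) :
    ((MM n (2 * n) u).filter fun m => 2 ∣ m.1 ∧ 2 ∣ m.2.2.1).card = (MM n n u).card := by
  symm
  have hco : IsCoprime (n : ℤ) 2 := by
    rw [Int.isCoprime_iff_gcd_eq_one]
    have : Nat.gcd n 2 = 1 := by
      rw [Nat.gcd_comm, ← Nat.coprime_iff_gcd_eq_one, Nat.coprime_two_left, Nat.odd_iff]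
      exact hn
    exact_mod_cast this
  refine card_bij' (fun m _ => (2 * m.1, m.2.1, 2 * m.2.2.1, m.2.2.2))
    (fun m _ => (m.1 / 2, m.2.1, m.2.2.1 / 2, m.2.2.2)) ?_ ?_ ?_ ?_
  · rintro ⟨a, a', X, Y⟩ hm
    rw [MM, mem_filter, mem_QQ, Cd] at hm
    simp only at hm
    obtain ⟨⟨h1, h2, h3, h4, h5, h6, h7⟩, h8, h9⟩ := hm
    rw [mem_filter, MM, mem_filter, mem_QQ, Cd]
    simp only
    refine ⟨⟨⟨by omega, h2, by omega, h4, Dvd.dvd.mul_left h5 2, h6, ?_⟩, ?_, h9⟩,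
      Dvd.intro _ rfl, Dvd.intro _ rfl⟩
    · rw [← h7]; ring
    · have : ((2 * a : ℕ) : ℤ) * u + ((2 * X : ℕ) : ℤ) = 2 * ((a : ℤ) * u + X) := by
        push_cast; ring
      rw [this]
      exact Dvd.dvd.mul_left h8 2
  · rintro ⟨a, a', X, Y⟩ hm
    rw [mem_filter, MM, mem_filter, mem_QQ, Cd] at hm
    simp only at hm
    obtain ⟨⟨⟨h1, h2, h3, h4, h5, h6, h7⟩, h8, h9⟩, ⟨c, rfl⟩, ⟨d, rfl⟩⟩ := hm
    rw [MM, mem_filter, mem_QQ, Cd]
    simp only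
    rw [Nat.mul_div_cancel_left _ two_pos, Nat.mul_div_cancel_left _ two_pos]
    refine ⟨⟨by omega, h2, by omega, h4, ?_, h6, ?_⟩, ?_, h9⟩
    · exact (Nat.Coprime.dvd_mul_left (by norm_num : Nat.Coprime 7 2)).mp h5
    · have : 2 * (c * Y + a' * d) = 2 * n := by rw [← h7]; ring
      omega
    · have : ((2 * c : ℕ) : ℤ) * u + ((2 * d : ℕ) : ℤ) = 2 * ((c : ℤ) * u + d) := by
        push_cast; ring
      rw [this] at h8
      exact hco.dvd_of_dvd_mul_left h8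
  · rintro ⟨a, a', X, Y⟩ hm
    simp
  · rintro ⟨a, a', X, Y⟩ hm
    rw [mem_filter] at hm
    simp only at hm
    obtain ⟨-, ⟨c, rfl⟩, ⟨d, rfl⟩⟩ := hm
    simp

theorem card_E2 {n : ℕ} (hn : n % 2 = 1) (u : ℕ) :
    ((MM n (2 * n) u).filter fun m => 2 ∣ m.2.1 ∧ 2 ∣ m.2.2.2).card = (MM n n u).card := by
  symm
  have hco : IsCoprime (n : ℤ) 2 := by
    rw [Int.isCoprime_iff_gcd_eq_one]
    have : Nat.gcd n 2 = 1 := by
      rw [Nat.gcd_comm, ← Nat.coprime_iff_gcd_eq_one, Nat.coprime_two_left, Nat.odd_iff]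
      exact hn
    exact_mod_cast this
  refine card_bij' (fun m _ => (m.1, 2 * m.2.1, m.2.2.1, 2 * m.2.2.2))
    (fun m _ => (m.1, m.2.1 / 2, m.2.2.1, m.2.2.2 / 2)) ?_ ?_ ?_ ?_
  · rintro ⟨a, a', X, Y⟩ hm
    rw [MM, mem_filter, mem_QQ, Cd] at hm
    simp only at hm
    obtain ⟨⟨h1, h2, h3, h4, h5, h6, h7⟩, h8, h9⟩ := hm
    rw [mem_filter, MM, mem_filter, mem_QQ, Cd]
    simp only
    refine ⟨⟨⟨h1, by omega, h3, by omega, h5, Dvd.dvd.mul_left h6 2, ?_⟩, h8, ?_⟩,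
      Dvd.intro _ rfl, Dvd.intro _ rfl⟩
    · rw [← h7]; ring
    · have : ((2 * a' : ℕ) : ℤ) * u - ((2 * Y : ℕ) : ℤ) = 2 * ((a' : ℤ) * u - Y) := by
        push_cast; ring
      rw [this]
      exact Dvd.dvd.mul_left h9 2
  · rintro ⟨a, a', X, Y⟩ hm
    rw [mem_filter, MM, mem_filter, mem_QQ, Cd] at hm
    simp only at hm
    obtain ⟨⟨⟨h1, h2, h3, h4, h5, h6, h7⟩, h8, h9⟩, ⟨c, rfl⟩, ⟨d, rfl⟩⟩ := hm
    rw [MM, mem_filter, mem_QQ, Cd]
    simp only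
    rw [Nat.mul_div_cancel_left _ two_pos, Nat.mul_div_cancel_left _ two_pos]
    refine ⟨⟨h1, by omega, h3, by omega, h5, ?_, ?_⟩, h8, ?_⟩
    · exact (Nat.Coprime.dvd_mul_left (by norm_num : Nat.Coprime 3 2)).mp h6
    · have : 2 * (a * d + c * X) = 2 * n := by rw [← h7]; ring
      omega
    · have : ((2 * c : ℕ) : ℤ) * u - ((2 * d : ℕ) : ℤ) = 2 * ((c : ℤ) * u - d) := by
        push_cast; ring
      rw [this] at h9
      exact hco.dvd_of_dvd_mul_left h9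
  · rintro ⟨a, a', X, Y⟩ hm
    simp
  · rintro ⟨a, a', X, Y⟩ hm
    rw [mem_filter] at hm
    simp only at hm
    obtain ⟨-, ⟨c, rfl⟩, ⟨d, rfl⟩⟩ := hm
    simp

/-- the matrices with primitive first row -/
def MP (n u : ℕ) : Finset (ℕ × ℕ × ℕ × ℕ) :=
  (MM n (2 * n) u).filter fun m => ¬ (2 ∣ m.1 ∧ 2 ∣ m.2.2.1)

/-- the sum of the weights -/
theorem sum_MP {n : ℕ} (hn : n % 2 = 1) (u : ℕ) :
    ∑ m ∈ MP n u, (if 2 ∣ m.2.1 ∧ 2 ∣ m.2.2.2 then (-1 : ℤ) else 1) =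
      (MM n (2 * n) u).card - 3 * (MM n n u).card := by
  have h1 := card_E1 hn u
  have h2 := card_E2 hn u
  have h3 : ((MM n (2 * n) u).filter fun m => 2 ∣ m.1 ∧ 2 ∣ m.2.2.1).card + (MP n u).card =
      (MM n (2 * n) u).card := card_filter_add_card_filter_not _
  have h4 : (MP n u).filter (fun m => 2 ∣ m.2.1 ∧ 2 ∣ m.2.2.2) =
      (MM n (2 * n) u).filter fun m => 2 ∣ m.2.1 ∧ 2 ∣ m.2.2.2 := by
    ext m
    rw [mem_filter, MP, mem_filter, mem_filter]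
    constructor
    · rintro ⟨⟨a1, -⟩, a2⟩
      exact ⟨a1, a2⟩
    · rintro ⟨a1, a2⟩
      refine ⟨⟨a1, ?_⟩, a2⟩
      rintro ⟨⟨c, hc⟩, ⟨d, hd⟩⟩
      obtain ⟨⟨e, he⟩, ⟨f, hf⟩⟩ := a2
      rw [MM, mem_filter, mem_QQ] at a1
      have h7 := a1.1.2.2.2.2.2.2
      rw [hc, hd, he, hf] at h7
      have : 4 * (c * f + e * d) = 2 * n := by rw [← h7]; ring
      omega
  have h5 : ∑ m ∈ MP n u, (if 2 ∣ m.2.1 ∧ 2 ∣ m.2.2.2 then (-1 : ℤ) else 1) =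
      ∑ m ∈ MP n u, (1 - 2 * if 2 ∣ m.2.1 ∧ 2 ∣ m.2.2.2 then (1 : ℤ) else 0) := by
    apply sum_congr rfl
    intro m _
    split_ifs <;> norm_num
  rw [h5, sum_sub_distrib, ← mul_sum, ← sum_filter, h4, sum_const, sum_const, h2]
  have h6 : ((MP n u).card : ℤ) = (MM n (2 * n) u).card - (MM n n u).card := by
    rw [← h3, h1]; push_cast; ring
  rw [nsmul_eq_mul, nsmul_eq_mul, h6]
  ring

/-! ### forms -/

/-- the forms of the first orientation which are negative at the cusp, with their weights -/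
def f22 (x M : ℤ) (q : ℤ × ℤ × ℤ) : ℤ := by
  classical
  exact if (q.2.1 ^ 2 - 4 * q.1 * q.2.2 = 4 ∧ (21 : ℤ) ∣ q.1 ∧ q.2.1 % 42 = 26) ∧ 0 < q.1 ∧
    q.1 * x ^ 2 + q.2.1 * x * M + q.2.2 * M ^ 2 < 0 then
    (if (2 : ℤ) ∣ q.1 ∧ (2 : ℤ) ∣ q.2.2 then -1 else 1) else 0

/-- the second coefficients -/
def bb (n u : ℕ) (m : ℕ × ℕ × ℕ × ℕ) : ℤ := -(((m.1 : ℤ) * u + m.2.2.1) / n)

def bb' (n u : ℕ) (m : ℕ × ℕ × ℕ × ℕ) : ℤ := -(((m.2.1 : ℤ) * u - m.2.2.2) / n)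

/-- the form of a matrix -/
def Ph (n u : ℕ) (m : ℕ × ℕ × ℕ × ℕ) : ℤ × ℤ × ℤ :=
  ((m.1 : ℤ) * m.2.1, m.1 * bb' n u m + m.2.1 * bb n u m, bb n u m * bb' n u m)

theorem MP_facts {n u : ℕ} (hn : n % 2 = 1) {m : ℕ × ℕ × ℕ × ℕ} (hm : m ∈ MP n u) :
    0 < m.1 ∧ 0 < m.2.1 ∧ 0 < m.2.2.1 ∧ 0 < m.2.2.2 ∧ 7 ∣ m.1 ∧ 3 ∣ m.2.1 ∧
    (n : ℤ) * bb n u m = -((m.1 : ℤ) * u + m.2.2.1) ∧ (n : ℤ) * bb' n u m = m.2.2.2 - m.2.1 * u ∧
    (m.1 : ℤ) * bb' n u m - m.2.1 * bb n u m = 2 ∧ IsCoprime (m.1 : ℤ) (bb n u m) ∧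
    (((2 : ℤ) ∣ (m.1 : ℤ) * m.2.1 ∧ (2 : ℤ) ∣ bb n u m * bb' n u m) ↔
      (2 ∣ m.2.1 ∧ 2 ∣ m.2.2.2)) := by
  obtain ⟨a, a', X, Y⟩ := m
  rw [MP, mem_filter, MM, mem_filter, mem_QQ, Cd] at hm
  simp only at hm
  obtain ⟨⟨⟨h1, h2, h3, h4, h5, h6, h7⟩, h8, h9⟩, h10⟩ := hm
  simp only [bb, bb']
  obtain ⟨b, hb⟩ := h8
  obtain ⟨c, hc⟩ := h9
  have hn0 : (n : ℤ) ≠ 0 := by
    have : n ≠ 0 := by rintro rfl; omega
    exact_mod_cast this
  rw [hb, hc, Int.mul_ediv_cancel_left _ hn0, Int.mul_ediv_cancel_left _ hn0]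
  have e1 : (n : ℤ) * -b = -(n * b) := by ring
  have e2 : (n : ℤ) * -c = Y - a' * u := by linear_combination hc
  have h7' : (a : ℤ) * Y + a' * X = 2 * n := by exact_mod_cast h7
  have e3 : (a : ℤ) * -c - a' * -b = 2 := by
    have : (n : ℤ) * ((a : ℤ) * -c - a' * -b) = n * 2 := by
      linear_combination (a : ℤ) * hc - (a' : ℤ) * hb + h7'
    exact mul_left_cancel₀ hn0 this
  -- parities
  have hno : ¬ (2 : ℤ) ∣ n := by omega
  have p2 : Prime (2 : ℤ) := Int.prime_two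
  have hab : ¬ ((2 : ℤ) ∣ a ∧ (2 : ℤ) ∣ b) := by
    rintro ⟨g1, g2⟩
    apply h10
    refine ⟨by exact_mod_cast g1, ?_⟩
    have : (2 : ℤ) ∣ (X : ℤ) := by
      have e : (X : ℤ) = n * b - a * u := by linear_combination hb
      rw [e]
      exact dvd_sub (Dvd.dvd.mul_left g2 _) (Dvd.dvd.mul_right g1 _)
    exact_mod_cast this
  refine ⟨h1, h2, h3, h4, h5, h6, e1, e2, e3, ?_, ?_⟩
  · rw [IsCoprime.neg_right_iff]
    rw [Int.isCoprime_iff_gcd_eq_one]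
    by_contra hg
    obtain ⟨q, hq, hq2⟩ := Nat.exists_prime_and_dvd hg
    have d1 : (q : ℤ) ∣ a := dvd_trans (by exact_mod_cast hq2) (Int.gcd_dvd_left ..)
    have d2 : (q : ℤ) ∣ b := dvd_trans (by exact_mod_cast hq2) (Int.gcd_dvd_right ..)
    have d3 : (q : ℤ) ∣ 2 := by
      rw [← e3]
      exact dvd_sub (Dvd.dvd.mul_right d1 _) (Dvd.dvd.mul_left ((dvd_neg).mpr d2) _)
    have d4 : q ∣ 2 := by exact_mod_cast d3
    have d5 : q = 2 := (Nat.prime_dvd_prime_iff_eq hq Nat.prime_two).mp d4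
    subst d5
    exact hab ⟨by exact_mod_cast d1, by exact_mod_cast d2⟩
  · constructor
    · rintro ⟨g1, g2⟩
      rw [neg_mul_neg] at g2
      have k1 : (2 : ℤ) ∣ a' ∧ (2 : ℤ) ∣ c := by
        rcases p2.dvd_or_dvd g1 with g1 | g1
        · have hb2 : ¬ (2 : ℤ) ∣ b := fun h => hab ⟨g1, h⟩
          have hc2 : (2 : ℤ) ∣ c := (p2.dvd_or_dvd g2).resolve_left hb2
          refine ⟨?_, hc2⟩
          have : (2 : ℤ) ∣ a' * b := by
            have e : (a' : ℤ) * b = 2 + a * c := by linear_combination e3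
            rw [e]
            exact dvd_add (dvd_refl _) (Dvd.dvd.mul_right g1 _)
          exact (p2.dvd_or_dvd this).resolve_right hb2
        · refine ⟨g1, ?_⟩
          by_contra hc2
          have hb2 : (2 : ℤ) ∣ b := (p2.dvd_or_dvd g2).resolve_right hc2
          have : (2 : ℤ) ∣ a * c := by
            have e : (a : ℤ) * c = a' * b - 2 := by linear_combination (-1 : ℤ) * e3
            rw [e]
            exact dvd_sub (Dvd.dvd.mul_right g1 _) (dvd_refl _)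
          exact hab ⟨(p2.dvd_or_dvd this).resolve_right hc2, hb2⟩
      refine ⟨by exact_mod_cast k1.1, ?_⟩
      have : (2 : ℤ) ∣ (Y : ℤ) := by
        have e : (Y : ℤ) = a' * u - n * c := by linear_combination (-1 : ℤ) * hc
        rw [e]
        exact dvd_sub (Dvd.dvd.mul_right k1.1 _) (Dvd.dvd.mul_left k1.2 _)
      exact_mod_cast this
    · rintro ⟨g1, g2⟩
      have g1' : (2 : ℤ) ∣ a' := by exact_mod_cast g1
      have g2' : (2 : ℤ) ∣ Y := by exact_mod_cast g2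
      refine ⟨Dvd.dvd.mul_left g1' _, ?_⟩
      have : (2 : ℤ) ∣ n * c := by
        rw [← hc]
        exact dvd_sub (Dvd.dvd.mul_right g1' _) g2'
      rw [neg_mul_neg]
      exact Dvd.dvd.mul_left ((p2.dvd_or_dvd this).resolve_left hno) _

theorem f22_Ph {n u : ℕ} (hn : n % 2 = 1) {m : ℕ × ℕ × ℕ × ℕ} (hm : m ∈ MP n u) :
    f22 u n (Ph n u m) = if 2 ∣ m.2.1 ∧ 2 ∣ m.2.2.2 then (-1 : ℤ) else 1 := by
  obtain ⟨h1, h2, h3, h4, h5, h6, h7, h8, h9, h10, h11⟩ := MP_facts hn hm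
  have hc : ((Ph n u m).2.1 ^ 2 - 4 * (Ph n u m).1 * (Ph n u m).2.2 = 4 ∧ (21 : ℤ) ∣ (Ph n u m).1 ∧
      (Ph n u m).2.1 % 42 = 26) ∧ 0 < (Ph n u m).1 ∧
      (Ph n u m).1 * (u : ℤ) ^ 2 + (Ph n u m).2.1 * u * n + (Ph n u m).2.2 * (n : ℤ) ^ 2 < 0 := by
    simp only [Ph]
    refine ⟨⟨?_, ?_, ?_⟩, ?_, ?_⟩
    · linear_combination ((m.1 : ℤ) * bb' n u m - m.2.1 * bb n u m + 2) * h9
    · obtain ⟨k, hk⟩ := h5
      obtain ⟨l, hl⟩ := h6
      rw [hk, hl]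
      exact ⟨k * l, by push_cast; ring⟩
    · obtain ⟨k, hk⟩ := h5
      obtain ⟨l, hl⟩ := h6
      have e1 : (m.1 : ℤ) * bb' n u m + m.2.1 * bb n u m = 14 * (k * bb' n u m) - 2 := by
        rw [hk] at h9 ⊢
        push_cast at h9 ⊢
        linear_combination (-1 : ℤ) * h9
      have e2 : (m.1 : ℤ) * bb' n u m + m.2.1 * bb n u m = 6 * (l * bb n u m) + 2 := by
        rw [hl] at h9 ⊢
        push_cast at h9 ⊢
        linear_combination h9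
      generalize (k : ℤ) * bb' n u m = s at e1
      generalize (l : ℤ) * bb n u m = t at e2
      omega
    · exact mul_pos (by exact_mod_cast h1) (by exact_mod_cast h2)
    · have e : (m.1 : ℤ) * m.2.1 * (u : ℤ) ^ 2 + (m.1 * bb' n u m + m.2.1 * bb n u m) * u * n +
          bb n u m * bb' n u m * (n : ℤ) ^ 2 = -((m.2.2.1 : ℤ) * m.2.2.2) := by
        have e1 : (m.1 : ℤ) * m.2.1 * (u : ℤ) ^ 2 + (m.1 * bb' n u m + m.2.1 * bb n u m) * u * n +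
          bb n u m * bb' n u m * (n : ℤ) ^ 2 =
          (m.1 * u + n * bb n u m) * (m.2.1 * u + n * bb' n u m) := by ring
        rw [e1, h7, h8]
        ring
      rw [e]
      have : 0 < (m.2.2.1 : ℤ) * m.2.2.2 := mul_pos (by exact_mod_cast h3) (by exact_mod_cast h4)
      linarith
  rw [f22, if_pos hc]
  simp only [Ph]
  by_cases h : 2 ∣ m.2.1 ∧ 2 ∣ m.2.2.2
  · rw [if_pos h, if_pos (h11.mpr h)]
  · rw [if_neg h, if_neg fun g => h (h11.mp g)]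

theorem Ph_inj {n u : ℕ} (hn : n % 2 = 1) : Set.InjOn (Ph n u) (MP n u : Set _) := by
  intro m hm m' hm' he
  obtain ⟨h1, h2, h3, h4, h5, h6, h7, h8, h9, h10, h11⟩ := MP_facts hn hm
  obtain ⟨k1, k2, k3, k4, k5, k6, k7, k8, k9, k10, k11⟩ := MP_facts hn hm'
  simp only [Ph, Prod.mk.injEq] at he
  obtain ⟨e1, e2, e3⟩ := he
  have hA : (m.1 : ℤ) * m.2.1 ≠ 0 := by positivity
  have c1 : (m.2.1 : ℤ) * bb n u m = m'.2.1 * bb n u m' := by
    have : 2 * ((m.2.1 : ℤ) * bb n u m) = 2 * (m'.2.1 * bb n u m') := by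
      linear_combination e2 - h9 + k9
    linarith
  have c2 : (m'.1 : ℤ) * bb n u m = m.1 * bb n u m' := by
    have : ((m.1 : ℤ) * m.2.1) * ((m'.1 : ℤ) * bb n u m) =
        ((m.1 : ℤ) * m.2.1) * (m.1 * bb n u m') := by
      linear_combination (m.1 : ℤ) * m'.1 * c1 - (m.1 : ℤ) * bb n u m' * e1
    exact mul_left_cancel₀ hA this
  have d1 : (m.1 : ℤ) ∣ m'.1 := h10.dvd_of_dvd_mul_right (by rw [c2]; exact Dvd.intro _ rfl)
  have d2 : (m'.1 : ℤ) ∣ m.1 := k10.dvd_of_dvd_mul_right (by rw [← c2]; exact Dvd.intro _ rfl)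
  have f1 : m.1 = m'.1 := Nat.dvd_antisymm (by exact_mod_cast d1) (by exact_mod_cast d2)
  have hm0 : (m.1 : ℤ) ≠ 0 := by positivity
  have f2 : m.2.1 = m'.2.1 := by
    rw [← f1] at e1
    exact_mod_cast mul_left_cancel₀ hm0 e1
  have f3 : bb n u m = bb n u m' := by
    rw [← f1] at c2
    exact mul_left_cancel₀ hm0 c2
  have f4 : bb' n u m = bb' n u m' := by
    have : (m.1 : ℤ) * bb' n u m = m.1 * bb' n u m' := by
      rw [← f1, ← f2, ← f3] at k9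
      linear_combination h9 - k9
    exact mul_left_cancel₀ hm0 this
  have f5 : m.2.2.1 = m'.2.2.1 := by
    rw [f3, k7, f1] at h7
    have : (m'.2.2.1 : ℤ) = m.2.2.1 := by linear_combination (-1 : ℤ) * h7
    exact_mod_cast this.symm
  have f6 : m.2.2.2 = m'.2.2.2 := by
    rw [f4, k8, f2] at h8
    have : (m'.2.2.2 : ℤ) = m.2.2.2 := by linear_combination h8
    exact_mod_cast this.symm
  exact Prod.ext f1 (Prod.ext f2 (Prod.ext f5 f6))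

theorem Ph_surj {n u : ℕ} (hn : n % 2 = 1) (q : ℤ × ℤ × ℤ) (hq : f22 u n q ≠ 0) :
    ∃ m ∈ MP n u, Ph n u m = q := by
  obtain ⟨A, B, C⟩ := q
  have h : ((B ^ 2 - 4 * A * C = 4 ∧ (21 : ℤ) ∣ A ∧ B % 42 = 26) ∧ 0 < A ∧
    A * (u : ℤ) ^ 2 + B * u * n + C * (n : ℤ) ^ 2 < 0) := by
    by_contra h
    apply hq
    rw [f22, if_neg h]
  obtain ⟨⟨h1, h2, h3⟩, h4, h5⟩ := h
  obtain ⟨k, rfl⟩ : ∃ k, B = 2 * k := ⟨B / 2, by omega⟩
  have hdisc : A * C = (k - 1) * (k + 1) := by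
    have : 4 * (A * C) = 4 * ((k - 1) * (k + 1)) := by linear_combination (-1 : ℤ) * h1
    linarith
  have hg : 0 < Int.gcd A (k - 1) := Int.gcd_pos_of_ne_zero_left _ h4.ne'
  obtain ⟨a, b, hco, ha, hb⟩ := Int.exists_gcd_one hg
  generalize hgd : Int.gcd A (k - 1) = g at hg ha hb
  clear hgd
  have hg' : (0 : ℤ) < g := by exact_mod_cast hg
  have hco' : IsCoprime a b := Int.isCoprime_iff_gcd_eq_one.mpr hco
  have ha0 : 0 < a := by
    rw [ha] at h4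
    exact (mul_pos_iff_of_pos_right hg').mp h4
  have e1 : a * C = b * (k + 1) := by
    have : (g : ℤ) * (a * C) = g * (b * (k + 1)) := by
      have := hdisc
      rw [ha] at this
      have h6 : (a * (g : ℤ)) * C = (b * g) * (k + 1) := by rw [this, hb]
      linear_combination h6
    exact mul_left_cancel₀ hg'.ne' this
  obtain ⟨b', hb'⟩ : a ∣ k + 1 := hco'.dvd_of_dvd_mul_left (by rw [← e1]; exact Dvd.intro _ rfl)
  have hC : C = b * b' := by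
    have : a * C = a * (b * b') := by rw [e1, hb']; ring
    exact mul_left_cancel₀ ha0.ne' this
  have hdet : a * b' - g * b = 2 := by linear_combination hb - hb'
  have hn0' : 0 < n := by omega
  have hn0 : (0 : ℤ) < n := by exact_mod_cast hn0'
  have h3a : (7 : ℤ) ∣ a := by
    have h6 : (7 : ℤ) ∣ a * g := by
      rw [← ha]
      exact dvd_trans (by norm_num) h2
    have p7 : Prime (7 : ℤ) := by
      have := Nat.prime_iff_prime_int.mp (by norm_num : Nat.Prime 7)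
      exact_mod_cast this
    refine (p7.dvd_or_dvd h6).resolve_right ?_
    intro h7
    have h8 : (7 : ℤ) ∣ k - 1 := by
      rw [hb]
      exact Dvd.dvd.mul_left h7 _
    omega
  have h5g : (3 : ℤ) ∣ g := by
    have h6 : (3 : ℤ) ∣ a * g := by
      rw [← ha]
      exact dvd_trans (by norm_num) h2
    have p5 : Prime (3 : ℤ) := Int.prime_three
    refine (p5.dvd_or_dvd h6).resolve_left ?_
    intro h7
    have h8 : (3 : ℤ) ∣ k + 1 := by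
      rw [hb']
      exact Dvd.dvd.mul_right h7 _
    omega
  obtain ⟨X, hX⟩ : ∃ X : ℤ, X = -(a * u + b * n) := ⟨_, rfl⟩
  obtain ⟨Y, hY⟩ : ∃ Y : ℤ, Y = g * u + b' * n := ⟨_, rfl⟩
  have hXY : 0 < X * Y := by
    have : X * Y = -(A * (u : ℤ) ^ 2 + 2 * k * u * n + C * (n : ℤ) ^ 2) := by
      rw [hX, hY, ha, hC]
      linear_combination (u : ℤ) * n * (hb + hb')
    rw [this]
    linarith
  have hsum : a * Y + g * X = 2 * n := by
    rw [hX, hY]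
    linear_combination (n : ℤ) * hdet
  have hXp : 0 < X := by
    by_contra hX0
    push Not at hX0
    have hX1 : X < 0 := lt_of_le_of_ne hX0 (by rintro rfl; simp at hXY)
    have hY1 : Y < 0 := by
      by_contra hY0
      push Not at hY0
      nlinarith
    nlinarith
  have hYp : 0 < Y := by
    by_contra hY0
    push Not at hY0
    nlinarith
  lift a to ℕ using ha0.le
  lift X to ℕ using hXp.le
  lift Y to ℕ using hYp.le
  have hm : (a, g, X, Y) ∈ MP n u := by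
    rw [MP, mem_filter, MM, mem_filter, mem_QQ, Cd]
    simp only
    refine ⟨⟨⟨by exact_mod_cast ha0, hg, by exact_mod_cast hXp, by exact_mod_cast hYp,
      by exact_mod_cast h3a, by exact_mod_cast h5g, by exact_mod_cast hsum⟩, ?_, ?_⟩, ?_⟩
    · exact ⟨-b, by rw [hX]; ring⟩
    · exact ⟨-b', by rw [hY]; ring⟩
    · rintro ⟨g1, g2⟩
      have g1' : (2 : ℤ) ∣ (a : ℤ) := by exact_mod_cast g1
      have g2' : (2 : ℤ) ∣ (X : ℤ) := by exact_mod_cast g2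
      have g3 : (2 : ℤ) ∣ b * n := by
        have e : b * n = -(a * u) - X := by rw [hX]; ring
        rw [e]
        exact dvd_sub ((dvd_neg).mpr (Dvd.dvd.mul_right g1' _)) g2'
      have g4 : (2 : ℤ) ∣ b := (Int.prime_two.dvd_or_dvd g3).resolve_right (by omega)
      have := hco'.isUnit_of_dvd' g1' g4
      rw [Int.isUnit_iff] at this
      omega
  refine ⟨_, hm, ?_⟩
  have e3 : bb n u (a, g, X, Y) = b := by
    rw [bb]
    simp only
    have : (a : ℤ) * u + X = n * (-b) := by rw [hX]; ring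
    rw [this, Int.mul_ediv_cancel_left _ hn0.ne', neg_neg]
  have e4 : bb' n u (a, g, X, Y) = b' := by
    rw [bb']
    simp only
    have : (g : ℤ) * u - Y = n * (-b') := by rw [hY]; ring
    rw [this, Int.mul_ediv_cancel_left _ hn0.ne', neg_neg]
  rw [Ph, e3, e4]
  simp only
  rw [Prod.mk.injEq, Prod.mk.injEq]
  refine ⟨ha.symm, ?_, hC.symm⟩
  linear_combination (-1 : ℤ) * hb - hb'

/-- the weighted number of forms of the first orientation -/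
theorem fsum_f22 {n : ℕ} (hn : n % 2 = 1) (u : ℕ) :
    (Function.support (f22 u n)).Finite ∧
    ∑ᶠ q, f22 u n q = (MM n (2 * n) u).card - 3 * (MM n n u).card := by
  classical
  have hs : Function.support (f22 u n) ⊆ ((MP n u).image (Ph n u) : Finset _) := by
    intro q hq
    rw [Function.mem_support] at hq
    obtain ⟨m, hm, rfl⟩ := Ph_surj hn q hq
    rw [mem_coe]
    exact mem_image_of_mem _ hm
  refine ⟨Set.Finite.subset (Finset.finite_toSet _) hs, ?_⟩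
  rw [finsum_eq_sum_of_support_subset _ hs, sum_image (Ph_inj hn), ← sum_MP hn]
  exact sum_congr rfl fun m hm => f22_Ph hn hm

/-- the reflection -/
def tau (q : ℤ × ℤ × ℤ) : ℤ × ℤ × ℤ := (q.1, -q.2.1 - 2 * q.1, q.1 + q.2.1 + q.2.2)

theorem tau_tau (q : ℤ × ℤ × ℤ) : tau (tau q) = q := by
  obtain ⟨A, B, C⟩ := q
  simp only [tau]
  rw [Prod.mk.injEq, Prod.mk.injEq]
  refine ⟨rfl, ?_, ?_⟩ <;> ring

theorem f22_one {x M A B C : ℤ} (h : (B ^ 2 - 4 * A * C = 4 ∧ (21 : ℤ) ∣ A ∧ B % 42 = 26) ∧ 0 < A ∧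
    A * x ^ 2 + B * x * M + C * M ^ 2 < 0) :
    f22 x M (A, B, C) = if (2 : ℤ) ∣ A ∧ (2 : ℤ) ∣ C then -1 else 1 := by
  rw [f22]
  exact if_pos h

theorem f22_zero {x M A B C : ℤ} (h : ¬ ((B ^ 2 - 4 * A * C = 4 ∧ (21 : ℤ) ∣ A ∧ B % 42 = 26) ∧
    0 < A ∧ A * x ^ 2 + B * x * M + C * M ^ 2 < 0)) : f22 x M (A, B, C) = 0 := by
  rw [f22]
  exact if_neg h

open Classical in
theorem fp_eq {n : ℕ} (hn : n % 2 = 1) (u : ℕ) (hu : u ≤ n) :
    Fp u n = ((MM n (2 * n) u).card - 3 * (MM n n u).card : ℤ) -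
      ((MM n (2 * n) (n - u)).card - 3 * (MM n n (n - u)).card) := by
  obtain ⟨s1, s2⟩ := fsum_f22 hn u
  obtain ⟨s3, s4⟩ := fsum_f22 hn (n - u)
  let e : (ℤ × ℤ × ℤ) ≃ (ℤ × ℤ × ℤ) := ⟨tau, tau, tau_tau, tau_tau⟩
  have s5 : ∑ᶠ q, f22 ((n - u : ℕ) : ℤ) n (tau q) = ∑ᶠ q, f22 ((n - u : ℕ) : ℤ) n q :=
    finsum_comp_equiv e
  have s6 : (Function.support fun q => f22 ((n - u : ℕ) : ℤ) n (tau q)).Finite := by
    have : (Function.support fun q => f22 ((n - u : ℕ) : ℤ) n (tau q)) =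
        e ⁻¹' (Function.support (f22 ((n - u : ℕ) : ℤ) n)) := rfl
    rw [this]
    exact s3.preimage e.injective.injOn
  rw [← s2, ← s4, ← s5, ← finsum_sub_distrib s1 s6, Fp]
  apply finsum_congr
  rintro ⟨A, B, C⟩
  have hcast : ((n - u : ℕ) : ℤ) = n - u := by omega
  rw [hcast]
  have d1 : (-B - 2 * A) ^ 2 - 4 * A * (A + B + C) = B ^ 2 - 4 * A * C := by ring
  have d2 : A * ((n : ℤ) - u) ^ 2 + (-B - 2 * A) * (n - u) * n + (A + B + C) * (n : ℤ) ^ 2 =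
      A * (u : ℤ) ^ 2 + B * u * n + C * (n : ℤ) ^ 2 := by ring
  have ht : tau (A, B, C) = (A, -B - 2 * A, A + B + C) := rfl
  rw [ht]
  change (if Fm (A, B, C) ∧ 0 < A ∧ A * (u : ℤ) ^ 2 + B * u * n + C * (n : ℤ) ^ 2 < 0 then
    cQ (A, B, C) else 0) = _
  have hFm : Fm (A, B, C) ↔ B ^ 2 - 4 * A * C = 4 ∧ (21 : ℤ) ∣ A ∧ (B % 42 = 26 ∨ B % 42 = 16) :=
    Iff.rfl
  have hcQ : cQ (A, B, C) = (if B % 42 = 26 then 1 else -1) *
    (if (2 : ℤ) ∣ A ∧ (2 : ℤ) ∣ C then -1 else 1) := rfl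
  by_cases h : (B ^ 2 - 4 * A * C = 4 ∧ (21 : ℤ) ∣ A) ∧ 0 < A ∧
      A * (u : ℤ) ^ 2 + B * u * n + C * (n : ℤ) ^ 2 < 0
  · obtain ⟨⟨h1, h2⟩, h3, h4⟩ := h
    have hB2 : (2 : ℤ) ∣ B := by
      have : (2 : ℤ) ∣ B ^ 2 := ⟨2 * A * C + 2, by linear_combination h1⟩
      exact Int.prime_two.dvd_of_dvd_pow this
    by_cases hb : B % 42 = 26
    · have h6 : ¬ (-B - 2 * A) % 42 = 26 := by omega
      have c1 : Fm (A, B, C) ∧ 0 < A ∧ A * (u : ℤ) ^ 2 + B * u * n + C * (n : ℤ) ^ 2 < 0 :=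
        ⟨hFm.mpr ⟨h1, h2, Or.inl hb⟩, h3, h4⟩
      rw [if_pos c1, f22_one ⟨⟨h1, h2, hb⟩, h3, h4⟩, f22_zero (fun g => h6 g.1.2.2), hcQ, if_pos hb]
      ring
    · by_cases hb' : B % 42 = 16
      · have h6 : (-B - 2 * A) % 42 = 26 := by omega
        have h7 : ((2 : ℤ) ∣ A ∧ (2 : ℤ) ∣ A + B + C) ↔ ((2 : ℤ) ∣ A ∧ (2 : ℤ) ∣ C) := by
          constructor
          · rintro ⟨g1, g2⟩
            exact ⟨g1, by omega⟩
          · rintro ⟨g1, g2⟩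
            exact ⟨g1, by omega⟩
        have c1 : Fm (A, B, C) ∧ 0 < A ∧ A * (u : ℤ) ^ 2 + B * u * n + C * (n : ℤ) ^ 2 < 0 :=
          ⟨hFm.mpr ⟨h1, h2, Or.inr hb'⟩, h3, h4⟩
        rw [if_pos c1, f22_zero (fun g => hb g.1.2.2),
          f22_one ⟨⟨by rw [d1]; exact h1, h2, h6⟩, h3, by rw [d2]; exact h4⟩, hcQ, if_neg hb]
        by_cases h8 : (2 : ℤ) ∣ A ∧ (2 : ℤ) ∣ C
        · rw [if_pos h8, if_pos (h7.mpr h8)]
          ring
        · rw [if_neg h8, if_neg (fun g => h8 (h7.mp g))]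
          ring
      · have h6 : ¬ (-B - 2 * A) % 42 = 26 := by omega
        rw [if_neg (fun g => ((hFm.mp g.1).2.2.elim hb hb')), f22_zero (fun g => hb g.1.2.2),
          f22_zero (fun g => h6 g.1.2.2)]
        ring
  · rw [if_neg (fun g => h ⟨⟨(hFm.mp g.1).1, (hFm.mp g.1).2.1⟩, g.2⟩),
      f22_zero (fun g => h ⟨⟨g.1.1, g.1.2.1⟩, g.2⟩),
      f22_zero (fun g => h ⟨⟨by rw [← d1]; exact g.1.1, g.1.2.1⟩, g.2.1, by rw [← d2]; exact g.2.2⟩)]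
    ring

/-- the reflection of the units -/
theorem sum_refl {n : ℕ} (h1 : 1 < n) (h4 : n % 4 = 3) (g : ℕ → ℤ) :
    ∑ u ∈ un n, jacobiSym u n * g (n - u) = -∑ u ∈ un n, jacobiSym u n * g u := by
  rw [← sum_neg_distrib]
  have hm : ∀ u ∈ un n, 0 < u ∧ u < n := by
    intro u hu
    rw [un, mem_filter, mem_range] at hu
    refine ⟨?_, hu.1⟩
    rcases Nat.eq_zero_or_pos u with rfl | h
    · rw [Nat.coprime_zero_left] at hu
      omega
    · exact h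
  have hm2 : ∀ u ∈ un n, n - u ∈ un n := by
    intro u hu
    have := hm u hu
    rw [un, mem_filter, mem_range] at hu ⊢
    refine ⟨by omega, ?_⟩
    have h5 : Nat.Coprime (n - u) u := (Nat.coprime_sub_self_left this.2.le).mpr hu.2.symm
    have h6 : Nat.Coprime (n - u) ((n - u) + u) := Nat.coprime_self_add_right.mpr h5
    rwa [Nat.sub_add_cancel this.2.le] at h6
  refine sum_bij' (fun u _ => n - u) (fun u _ => n - u) hm2 hm2 ?_ ?_ ?_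
  · intro u hu
    have := hm u hu
    omega
  · intro u hu
    have := hm u hu
    omega
  · intro u hu
    have h2 := hm u hu
    have h3 : jacobiSym ((n - u : ℕ) : ℤ) n = -jacobiSym u n := by
      have h5 : jacobiSym ((n - u : ℕ) : ℤ) n = jacobiSym (-(u : ℤ)) n := by
        apply jacobiSym.mod_left'
        have : ((n - u : ℕ) : ℤ) = -(u : ℤ) + n := by omega
        rw [this, Int.add_emod_right]
      rw [h5, jacobiSym.neg _ (Nat.odd_iff.mpr (by omega)), ZMod.χ₄_nat_three_mod_four h4]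
      ring
    rw [h3]
    ring

theorem c1a : S_C1A := by
  intro n hn
  have h4 : n % 4 = 3 := by
    rcases hn.2 with h | h | h <;> omega
  have h1 : 1 < n := by omega
  have h2 : n % 2 = 1 := by omega
  rw [WU_eq, WU_eq]
  have h3 : ∑ u ∈ un n, jacobiSym u n * Fp u n =
      ∑ u ∈ un n, (jacobiSym u n * ((MM n (2 * n) u).card - 3 * (MM n n u).card : ℤ) -
        jacobiSym u n * ((MM n (2 * n) (n - u)).card - 3 * (MM n n (n - u)).card : ℤ)) := by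
    apply sum_congr rfl
    intro u hu
    rw [un, mem_filter, mem_range] at hu
    rw [fp_eq h2 u hu.1.le]
    ring
  rw [h3, sum_sub_distrib,
    sum_refl h1 h4 (fun u => ((MM n (2 * n) u).card - 3 * (MM n n u).card : ℤ)),
    sub_neg_eq_add, ← two_mul, mul_sum (a := (3 : ℤ)), ← sum_sub_distrib]
  congr 1
  apply sum_congr rfl
  intro u _
  ring

end Pool.Agent.Run7.h135.P21
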