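import Pool.Agent.Run7.h135.P21.Dim3
import Pool.Agent.Run7.h741.MG.Stm

/-!
# `S_DIM` of level `21`
-/

set_option autoImplicit false

namespace Pool.Agent.Run7.h135.P21

theorem t_DIM : Pool.Agent.Run7.h741.MG.S_DIM := dim21

end Pool.Agent.Run7.h135.P21
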