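import Mathlib

/-!
# Level one: the zero of `E₄` at `ρ` is simple
-/

set_option autoImplicit false

open UpperHalfPlane ModularForm MatrixGroups CongruenceSubgroup Filter Topology EisensteinSeries
open Derivative Complex
open scoped Manifold

namespace Pool.Agent.Run7.h135.P21

noncomputable section

/-- the point `(-1 + i sqrt 3) / 2` -/
def rho : ℍ := ⟨⟨-1 / 2, Real.sqrt 3 / 2⟩, by
  show 0 < Real.sqrt 3 / 2
  positivity⟩

theorem rho_eq : (rho : ℂ) ^ 2 + rho + 1 = 0 := by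
  have h : (rho : ℂ) = ⟨-1 / 2, Real.sqrt 3 / 2⟩ := rfl
  rw [h]
  apply Complex.ext
  · simp [pow_two]
    have := Real.mul_self_sqrt (show (0 : ℝ) ≤ 3 by norm_num)
    nlinarith
  · simp [pow_two]
    ring

theorem rho_pow3 : (rho : ℂ) ^ 3 = 1 := by
  linear_combination (rho - 1 : ℂ) * rho_eq

theorem rho_ne : (rho : ℂ) ≠ 0 := rho.ne_zero

/-- the element of order six fixing `ρ` -/
def uu : SL(2, ℤ) := ⟨!![0, -1; 1, 1], by simp [Matrix.det_fin_two]⟩

theorem uu_rho : uu • rho = rho := by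
  ext
  rw [UpperHalfPlane.specialLinearGroup_apply]
  have h1 : (rho : ℂ) + 1 ≠ 0 := by
    intro h
    have := rho_eq
    have h2 : (rho : ℂ) ^ 2 = 0 := by linear_combination this - h
    exact rho_ne (pow_eq_zero_iff (two_ne_zero) |>.mp h2)
  simp [uu]
  rw [div_eq_iff h1]
  linear_combination -rho_eq

theorem denom_uu : denom (uu : GL (Fin 2) ℝ) rho = (rho : ℂ) + 1 := by
  rw [ModularGroup.denom_apply]
  simp [uu]

/-- a function invariant under the stabilizer vanishes unless the weight is a multiple of 6 -/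
theorem val_rho {f : ℍ → ℂ} {k : ℤ} (hf : f ∣[k] uu = f) (hk : ((rho : ℂ) + 1) ^ (-k) ≠ 1) :
    f rho = 0 := by
  have h := congrFun hf rho
  rw [ModularForm.SL_slash_apply, uu_rho, denom_uu] at h
  have h2 : f rho * (((rho : ℂ) + 1) ^ (-k) - 1) = 0 := by linear_combination h
  exact (mul_eq_zero.mp h2).resolve_right (sub_ne_zero.mpr hk)

theorem rho1 : (rho : ℂ) + 1 = -rho ^ 2 := by linear_combination rho_eq

theorem rho_ne_one : (rho : ℂ) ≠ 1 := by
  intro h
  have := rho_eq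
  rw [h] at this
  norm_num at this

theorem pow2_ne : ((rho : ℂ) + 1) ^ (-2 : ℤ) ≠ 1 := by
  rw [rho1]
  intro h
  have e : (-(rho : ℂ) ^ 2) ^ (-2 : ℤ) = ((rho : ℂ) ^ 4)⁻¹ := by
    rw [zpow_neg]
    congr 1
    norm_cast
    ring
  rw [e, inv_eq_one] at h
  apply rho_ne_one
  linear_combination h - (rho : ℂ) * rho_pow3

theorem pow4_ne : ((rho : ℂ) + 1) ^ (-4 : ℤ) ≠ 1 := by
  rw [rho1]
  intro h
  have e : (-(rho : ℂ) ^ 2) ^ (-4 : ℤ) = ((rho : ℂ) ^ 8)⁻¹ := by
    rw [zpow_neg]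
    congr 1
    norm_cast
    ring
  rw [e, inv_eq_one] at h
  have h3 : (rho : ℂ) ^ 2 = 1 := by
    linear_combination h - ((rho : ℂ) ^ 5 + rho ^ 2) * rho_pow3
  have h4 : (rho : ℂ) = -2 := by linear_combination rho_eq - h3
  rw [h4] at h3
  norm_num at h3

theorem E4_rho : E₄ rho = 0 := by
  apply val_rho (k := 4) _ pow4_ne
  exact SlashInvariantFormClass.slash_action_eq E₄ _ ⟨uu, rfl⟩

theorem E6_rho : E₆ rho ≠ 0 := by
  intro h
  have h1 := discriminant_eq_E₄_cube_sub_E₆_sq rho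
  rw [E4_rho, h] at h1
  apply discriminant_ne_zero rho
  rw [h1]
  norm_num

/-- the limit at infinity from the `q`-expansion -/
theorem tendsto_of_hasSum {f : ℍ → ℂ} {c : ℕ → ℂ} (hper : Function.Periodic (f ∘ ofComplex) 1)
    (hhol : MDiff f)
    (hf : ∀ τ : ℍ, HasSum (fun m ↦ c m • Function.Periodic.qParam 1 τ ^ m) (f τ)) :
    Tendsto f atImInfty (𝓝 (c 0)) := by
  have hb := isBoundedAtImInfty_of_hasSum_qExpansion one_pos hf
  have ha := analyticAt_cuspFunction_zero (f := f) one_pos (by exact_mod_cast hper) hhol hb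
  have h1 := hasFPowerSeriesOnBall_cuspFunction one_pos ha hf
  have h2 : cuspFunction 1 f 0 = c 0 := by
    have := h1.hasFPowerSeriesAt.coeff_zero (fun _ => 0)
    simpa using this.symm
  have h3 : (cuspFunction 1 f ∘ fun τ : ℍ ↦ Function.Periodic.qParam 1 τ) = f := by
    funext τ
    simpa using eq_cuspFunction τ one_ne_zero (by exact_mod_cast hper)
  rw [← h3, ← h2]
  exact ha.continuousAt.tendsto.comp (qParam_tendsto_atImInfty one_pos)

theorem E2_per : Function.Periodic (E2 ∘ ofComplex) 1 := by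
  intro w
  have key : ∀ τ σ : ℍ, (σ : ℂ) = τ + 1 → E2 σ = E2 τ := by
    intro τ σ h
    have h1 := hasSum_qExpansion_E2 (z := σ)
    have h2 := hasSum_qExpansion_E2 (z := τ)
    rw [h, mul_add, mul_one, Complex.exp_add, Complex.exp_two_pi_mul_I, mul_one] at h1
    exact h1.unique h2
  by_cases hw : 0 < im w
  · have h2 : 0 < im (w + 1) := by simpa using hw
    simp only [Function.comp_apply, ofComplex_apply_of_im_pos h2, ofComplex_apply_of_im_pos hw]
    exact key _ _ rfl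
  · have h1 : im w ≤ 0 := not_lt.mp hw
    have h2 : im (w + 1) ≤ 0 := by simpa using h1
    simp only [Function.comp_apply, ofComplex_apply_of_im_nonpos h2, ofComplex_apply_of_im_nonpos h1]

theorem E2_lim : Tendsto E2 atImInfty (𝓝 1) := by
  have := tendsto_of_hasSum (f := E2) (c := fun m : ℕ ↦ (if m = 0 then 1 else
    -24 * (ArithmeticFunction.sigma 1 m : ℂ) : ℂ)) E2_per E2_mdifferentiable
    (fun τ => by simpa only [Function.Periodic.qParam, ofReal_one, div_one] using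
      hasSum_qExpansion_E2 (z := τ))
  simpa using this

theorem E4_lim : Tendsto E₄ atImInfty (𝓝 1) := by
  have h1 : (qExpansion 1 E₄).coeff 0 = 1 := E_qExpansion_coeff_zero _ ⟨2, rfl⟩
  have := tendsto_of_hasSum (f := E₄) (c := fun m => (qExpansion 1 E₄).coeff m)
    (by exact_mod_cast SlashInvariantFormClass.periodic_comp_ofComplex E₄ one_mem_strictPeriods_SL)
    (ModularFormClass.holo E₄) (fun τ => ModularForm.hasSum_qExpansion E₄ one_pos
      one_mem_strictPeriods_SL τ)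
  rw [h1] at this
  exact this

/-- the derivative in terms of the cusp function -/
theorem D_eq {f : ℍ → ℂ} (hper : Function.Periodic (f ∘ ofComplex) 1) (hhol : MDiff f)
    (hb : IsBoundedAtImInfty f) (τ : ℍ) :
    D f τ = Function.Periodic.qParam 1 τ * deriv (cuspFunction 1 f) (Function.Periodic.qParam 1 τ) := by
  have hper' : Function.Periodic (f ∘ ofComplex) ((1 : ℝ) : ℂ) := by exact_mod_cast hper
  have hq : ‖Function.Periodic.qParam 1 (τ : ℂ)‖ < 1 := by
    simpa using Function.Periodic.norm_qParam_lt_one one_pos τ.im_pos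
  have hd := differentiableAt_cuspFunction (f := f) one_pos hper' hhol hb hq
  have hev : (f ∘ ofComplex) =ᶠ[𝓝 (τ : ℂ)] fun z => cuspFunction 1 f (Function.Periodic.qParam 1 z) := by
    have : {z : ℂ | 0 < z.im} ∈ 𝓝 (τ : ℂ) := (isOpen_lt continuous_const Complex.continuous_im).mem_nhds τ.im_pos
    filter_upwards [this] with z hz
    have h3 := eq_cuspFunction (f := f) ⟨z, hz⟩ one_ne_zero hper'
    simp only [Function.comp_apply, ofComplex_apply_of_im_pos hz]
    exact h3.symm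
  have hq' : HasDerivAt (fun z : ℂ => Function.Periodic.qParam 1 z)
      (2 * Real.pi * Complex.I * Function.Periodic.qParam 1 (τ : ℂ)) (τ : ℂ) := by
    have h4 : HasDerivAt (fun z : ℂ => Complex.exp (2 * Real.pi * Complex.I * z / ((1 : ℝ) : ℂ)))
      (Complex.exp (2 * Real.pi * Complex.I * τ / ((1 : ℝ) : ℂ)) * (2 * Real.pi * Complex.I * 1 / ((1 : ℝ) : ℂ))) (τ : ℂ) :=
      (((hasDerivAt_id (τ : ℂ)).const_mul (2 * Real.pi * Complex.I : ℂ)).div_const _).cexp
    unfold Function.Periodic.qParam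
    convert h4 using 1
    push_cast
    ring
  have h5 := HasDerivAt.comp (τ : ℂ) hd.hasDerivAt hq'
  rw [normalizedDerivOfComplex, hev.deriv_eq]
  have h6 : deriv (fun z => cuspFunction 1 f (Function.Periodic.qParam 1 z)) (τ : ℂ) = _ := h5.deriv
  rw [h6]
  have : (2 * Real.pi * Complex.I : ℂ) ≠ 0 := by
    simp [Real.pi_ne_zero]
  field_simp

theorem D_lim {f : ℍ → ℂ} (hper : Function.Periodic (f ∘ ofComplex) 1) (hhol : MDiff f)
    (hb : IsBoundedAtImInfty f) : Tendsto (D f) atImInfty (𝓝 0) := by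
  have ha := analyticAt_cuspFunction_zero (f := f) one_pos (by exact_mod_cast hper) hhol hb
  have h1 : D f = (fun q => q * deriv (cuspFunction 1 f) q) ∘ fun τ : ℍ ↦ Function.Periodic.qParam 1 τ := by
    funext τ
    exact D_eq hper hhol hb τ
  rw [h1]
  have h2 : ContinuousAt (fun q => q * deriv (cuspFunction 1 f) q) 0 :=
    continuousAt_id.mul ha.deriv.continuousAt
  have h3 := h2.tendsto.comp (qParam_tendsto_atImInfty one_pos)
  simpa using h3

theorem E4_per : Function.Periodic ((E₄ : ℍ → ℂ) ∘ ofComplex) 1 := by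
  exact_mod_cast SlashInvariantFormClass.periodic_comp_ofComplex E₄ one_mem_strictPeriods_SL

theorem SE_lim : Tendsto (serreDerivative ((4 : ℤ) : ℂ) E₄) atImInfty (𝓝 (-(1 / 3))) := by
  have h1 := D_lim E4_per (ModularFormClass.holo E₄) (ModularFormClass.bdd_at_infty E₄)
  have h2 : Tendsto (fun z => D E₄ z - ((4 : ℤ) : ℂ) * 12⁻¹ * E2 z * E₄ z) atImInfty
      (𝓝 (0 - ((4 : ℤ) : ℂ) * 12⁻¹ * 1 * 1)) :=
    h1.sub ((E2_lim.const_mul _).mul E4_lim)
  have h3 : (0 - ((4 : ℤ) : ℂ) * 12⁻¹ * 1 * 1) = -(1 / 3) := by norm_num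
  rw [h3] at h2
  exact h2

/-- the Serre derivative of `E₄` as a modular form of weight `6` -/
def SE : ModularForm 𝒮ℒ 6 where
  toFun := serreDerivative ((4 : ℤ) : ℂ) E₄
  slash_action_eq' := by
    rintro _ ⟨γ, rfl⟩
    have h1 : (E₄ : ℍ → ℂ) ∣[(4 : ℤ)] γ = E₄ := SlashInvariantFormClass.slash_action_eq E₄ _ ⟨γ, rfl⟩
    exact serreDerivative_slash_invariant (k := 4) (ModularFormClass.holo E₄) h1
  holo' := serreDerivative_mdifferentiable _ (ModularFormClass.holo E₄)
  bdd_at_cusps' {c} hc := by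
    rw [OnePoint.isBoundedAt_iff_forall_SL2Z hc]
    intro γ _
    have h1 : (E₄ : ℍ → ℂ) ∣[(4 : ℤ)] γ = E₄ := SlashInvariantFormClass.slash_action_eq E₄ _ ⟨γ, rfl⟩
    have h2 := serreDerivative_slash_invariant (k := 4) (ModularFormClass.holo E₄) h1
    have h3 : serreDerivative ((4 : ℤ) : ℂ) E₄ ∣[(6 : ℤ)] γ = serreDerivative ((4 : ℤ) : ℂ) E₄ := h2
    rw [h3]
    exact SE_lim.isBigO_one ℝ

theorem SE_eq : ∃ k : ℂ, k ≠ 0 ∧ ∀ z, serreDerivative ((4 : ℤ) : ℂ) E₄ z = k * E₆ z := by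
  obtain ⟨k, hk⟩ : ∃ k, k • E₆ = SE :=
    (finrank_eq_one_iff_of_nonzero' E₆ (E_ne_zero _ ⟨3, rfl⟩)).mp
      (Module.rank_eq_one_iff_finrank_eq_one.mp levelOne_weight_six_rank_one) _
  have h1 : ∀ z, serreDerivative ((4 : ℤ) : ℂ) E₄ z = k * E₆ z := by
    intro z
    have h2 : (k • E₆ : ModularForm 𝒮ℒ 6) z = SE z := by rw [hk]
    exact h2.symm
  refine ⟨k, ?_, h1⟩
  rintro rfl
  have h3 := SE_lim
  have h4 : serreDerivative ((4 : ℤ) : ℂ) E₄ = fun _ => (0 : ℂ) := by
    funext z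
    rw [h1 z, zero_mul]
  rw [h4] at h3
  have h5 := tendsto_nhds_unique h3 tendsto_const_nhds
  norm_num at h5

/-- `E₄` has a simple zero at `ρ` -/
theorem DE4_rho : D E₄ rho ≠ 0 := by
  obtain ⟨k, hk, h⟩ := SE_eq
  have h1 := h rho
  rw [serreDerivative_apply, E4_rho, mul_zero, sub_zero] at h1
  rw [h1]
  exact mul_ne_zero hk E6_rho

end

end Pool.Agent.Run7.h135.P21
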