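import Pool.Agent.Run7.h135.P21.Dim1

/-!
# `Γ₀(21)`: representatives of the cosets and the norm to level one
-/

set_option autoImplicit false

open UpperHalfPlane ModularForm MatrixGroups CongruenceSubgroup Filter Topology
open Matrix.SpecialLinearGroup (mapGL)
open scoped Manifold

namespace Pool.Agent.Run7.h135.P21

noncomputable section

/-- the index set of the cosets -/
abbrev II : Type := Unit ⊕ (Fin 21 ⊕ (Fin 7 ⊕ Fin 3))

/-- translations -/
def tt (j : ℤ) : SL(2, ℤ) := ⟨!![1, j; 0, 1], by simp [Matrix.det_fin_two]⟩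

/-- the base matrices -/
def bb0 : SL(2, ℤ) := ⟨!![0, -1; 1, 0], by simp [Matrix.det_fin_two]⟩
def bb3 : SL(2, ℤ) := ⟨!![1, 0; 3, 1], by simp [Matrix.det_fin_two]⟩
def bb7 : SL(2, ℤ) := ⟨!![1, 0; 7, 1], by simp [Matrix.det_fin_two]⟩

/-- the representatives -/
def rep : II → SL(2, ℤ)
  | .inl _ => 1
  | .inr (.inl j) => bb0 * tt ((j : ℕ) : ℤ)
  | .inr (.inr (.inl j)) => bb3 * tt ((j : ℕ) : ℤ)
  | .inr (.inr (.inr j)) => bb7 * tt ((j : ℕ) : ℤ)

/-- the bottom rows modulo `21` -/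
def bot : II → ZMod 21 × ZMod 21
  | .inl _ => (0, 1)
  | .inr (.inl j) => (1, ((j : ℕ) : ZMod 21))
  | .inr (.inr (.inl j)) => (3, 3 * ((j : ℕ) : ZMod 21) + 1)
  | .inr (.inr (.inr j)) => (7, 7 * ((j : ℕ) : ZMod 21) + 1)

theorem bot_rep (i : II) : (((rep i) 1 0 : ℤ) : ZMod 21) = (bot i).1 ∧
    (((rep i) 1 1 : ℤ) : ZMod 21) = (bot i).2 := by
  rcases i with _ | j | j | j <;>
    simp [rep, bot, tt, bb0, bb3, bb7, Matrix.mul_apply, Fin.sum_univ_two]

theorem bot_inj : ∀ i j : II, (bot i).1 * (bot j).2 - (bot i).2 * (bot j).1 = 0 → i = j := by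
  decide +kernel

theorem bot_surj : ∀ c d : ZMod 21, ¬ (7 * c = 0 ∧ 7 * d = 0) → ¬ (3 * c = 0 ∧ 3 * d = 0) →
    ∃ i : II, (bot i).1 * d - (bot i).2 * c = 0 := by
  decide +kernel

/-- membership in `Γ₀(21)` through the bottom rows -/
theorem mem_iff (a b : SL(2, ℤ)) : a * b⁻¹ ∈ Gamma0 21 ↔
    ((a 1 0 : ℤ) : ZMod 21) * ((b 1 1 : ℤ) : ZMod 21) -
      ((a 1 1 : ℤ) : ZMod 21) * ((b 1 0 : ℤ) : ZMod 21) = 0 := by
  rw [Gamma0_mem]
  have h : (a * b⁻¹) 1 0 = a 1 0 * b 1 1 - a 1 1 * b 1 0 := by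
    rw [Matrix.SpecialLinearGroup.SL2_inv_expl b]
    simp [Matrix.mul_apply, Fin.sum_univ_two]
    ring
  rw [h]
  push_cast
  rfl

/-- the group `Γ₀(21)` -/
abbrev GG : Subgroup (GL (Fin 2) ℝ) := (Gamma0 21 : Subgroup (GL (Fin 2) ℝ))

/-- the cosets -/
abbrev QQt : Type := 𝒮ℒ ⧸ (GG.subgroupOf 𝒮ℒ)

theorem mem_GG (a : SL(2, ℤ)) : mapGL ℝ a ∈ GG ↔ a ∈ Gamma0 21 := by
  constructor
  · rintro ⟨b, hb, h⟩
    have := Matrix.SpecialLinearGroup.mapGL_injective (S := ℝ) h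
    rwa [← this]
  · intro h
    exact ⟨a, h, rfl⟩

/-- the coset of a representative -/
def cs (i : II) : QQt := QuotientGroup.mk ⟨mapGL ℝ (rep i)⁻¹, ⟨(rep i)⁻¹, rfl⟩⟩

theorem cs_bij : Function.Bijective cs := by
  constructor
  · intro i j h
    unfold cs at h
    rw [QuotientGroup.eq, Subgroup.mem_subgroupOf] at h
    have h2 : mapGL ℝ (rep i * (rep j)⁻¹) ∈ GG := by
      convert h using 1
      simp
    rw [mem_GG, mem_iff, (bot_rep i).1, (bot_rep i).2, (bot_rep j).1, (bot_rep j).2] at h2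
    exact bot_inj i j h2
  · intro q
    induction q using QuotientGroup.induction_on with
    | H h =>
      obtain ⟨_, ⟨γ, rfl⟩⟩ := h
      set c : ℤ := (γ⁻¹) 1 0 with hc
      set d : ℤ := (γ⁻¹) 1 1 with hd
      have hdet : (γ⁻¹) 0 0 * d - (γ⁻¹) 0 1 * c = 1 := by
        have := (γ⁻¹).det_coe
        rwa [Matrix.det_fin_two] at this
      have hdet' : ((((γ⁻¹) 0 0 : ℤ) : ZMod 21)) * (d : ZMod 21) -
          (((γ⁻¹) 0 1 : ℤ) : ZMod 21) * (c : ZMod 21) = 1 := by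
        exact_mod_cast congrArg (Int.cast : ℤ → ZMod 21) hdet
      have h7 : ¬ (7 * (c : ZMod 21) = 0 ∧ 7 * (d : ZMod 21) = 0) := by
        rintro ⟨e1, e2⟩
        have : (7 : ZMod 21) = 0 := by
          linear_combination -7 * hdet' + (((γ⁻¹) 0 0 : ℤ) : ZMod 21) * e2 -
            (((γ⁻¹) 0 1 : ℤ) : ZMod 21) * e1
        revert this
        decide
      have h3 : ¬ (3 * (c : ZMod 21) = 0 ∧ 3 * (d : ZMod 21) = 0) := by
        rintro ⟨e1, e2⟩
        have : (3 : ZMod 21) = 0 := by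
          linear_combination -3 * hdet' + (((γ⁻¹) 0 0 : ℤ) : ZMod 21) * e2 -
            (((γ⁻¹) 0 1 : ℤ) : ZMod 21) * e1
        revert this
        decide
      obtain ⟨i, hi⟩ := bot_surj _ _ h7 h3
      refine ⟨i, ?_⟩
      unfold cs
      rw [QuotientGroup.eq, Subgroup.mem_subgroupOf]
      have h2 : mapGL ℝ (rep i * (γ⁻¹)⁻¹) ∈ GG := by
        rw [mem_GG, mem_iff, (bot_rep i).1, (bot_rep i).2]
        exact hi
      convert h2 using 1
      simp

theorem card_cs : Nat.card QQt = 32 := by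
  rw [← Nat.card_congr (Equiv.ofBijective cs cs_bij)]
  simp

/-- the translates of a form -/
def tr (g : CuspForm GG 2) (i : II) : ℍ → ℂ := (g : ℍ → ℂ) ∣[(2 : ℤ)] rep i

theorem norm_eq (g : CuspForm GG 2) (z : ℍ) : ModularForm.norm 𝒮ℒ g z = ∏ i : II, tr g i z := by
  rw [ModularForm.coe_norm]
  let _ : Fintype QQt := Fintype.ofFinite QQt
  have h1 := (Equiv.ofBijective cs cs_bij).prod_comp
    (fun q => SlashInvariantForm.quotientFunc g q z)
  rw [Finset.prod_apply]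
  refine h1.symm.trans ?_
  apply Finset.prod_congr rfl
  intro i _
  show SlashInvariantForm.quotientFunc g (cs i) z = _
  have h2 : SlashInvariantForm.quotientFunc g (cs i) =
      (g : ℍ → ℂ) ∣[(2 : ℤ)] ((mapGL ℝ (rep i)⁻¹)⁻¹) := rfl
  rw [h2, map_inv, inv_inv]
  rfl

/-- `g | γ` is invariant under `u` if `γ u γ⁻¹` lies in the group -/
theorem tr_inv (g : CuspForm GG 2) (i : II) (u : SL(2, ℤ)) (h : rep i * u * (rep i)⁻¹ ∈ Gamma0 21) :
    (tr g i) ∣[(2 : ℤ)] u = tr g i := by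
  unfold tr
  rw [← SlashAction.slash_mul]
  have h1 : rep i * u = (rep i * u * (rep i)⁻¹) * rep i := by group
  rw [h1, SlashAction.slash_mul]
  congr 1
  exact SlashInvariantFormClass.slash_action_eq g _ ((mem_GG _).mpr h)

/-- two of the translates vanish at `ρ` -/
theorem tr_rho (g : CuspForm GG 2) (j : Fin 21) (hj : j = 5 ∨ j = 17) :
    tr g (.inr (.inl j)) rho = 0 := by
  apply val_rho (k := 2) _ pow2_ne
  apply tr_inv
  rw [mem_iff]
  rcases hj with rfl | rfl <;>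
  · simp [rep, bb0, tt, uu, Matrix.mul_apply, Fin.sum_univ_two]
    try decide

theorem tr_mdiff (g : CuspForm GG 2) (i : II) : MDiff (tr g i) := by
  have := (CuspForm.translate g ((rep i : SL(2, ℤ)) : GL (Fin 2) ℝ)).holo'
  exact this

end

end Pool.Agent.Run7.h135.P21
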