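import Pool.Agent.Run7.h135.P21.Dim2

/-!
# `dim S₂(Γ₀(21)) ≤ 1`
-/

set_option autoImplicit false

open UpperHalfPlane ModularForm MatrixGroups CongruenceSubgroup Filter Topology
open Matrix.SpecialLinearGroup (mapGL)
open Derivative EisensteinSeries
open scoped Manifold

namespace Pool.Agent.Run7.h135.P21

noncomputable section

/-- exponential decay -/
def ex (c : ℝ) (z : ℍ) : ℝ := Real.exp (-(2 * Real.pi * c) * z.im)

theorem tt_im (j : ℤ) (z : ℍ) : (tt j • z).im = z.im := by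
  have h : ((tt j • z : ℍ) : ℂ) = z + j := by
    rw [UpperHalfPlane.specialLinearGroup_apply]
    simp [tt]
  have := congrArg Complex.im h
  simpa using this

theorem tt_coe (j : ℤ) (z : ℍ) : ((tt j • z : ℍ) : ℂ) = z + j := by
  rw [UpperHalfPlane.specialLinearGroup_apply]
  simp [tt]

theorem slash_tt (F : ℍ → ℂ) (j : ℤ) (z : ℍ) : (F ∣[(2 : ℤ)] tt j) z = F (tt j • z) := by
  rw [ModularForm.SL_slash_apply, ModularGroup.denom_apply]
  simp [tt]

theorem tt_tendsto (j : ℤ) : Tendsto (fun z : ℍ => tt j • z) atImInfty atImInfty := by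
  rw [atImInfty, tendsto_comap_iff]
  have : (UpperHalfPlane.im ∘ fun z : ℍ => tt j • z) = UpperHalfPlane.im := by
    funext z
    exact tt_im j z
  rw [this]
  exact tendsto_comap

/-- growth of the base translates -/
theorem base_growth (g : CuspForm GG 2) (b : SL(2, ℤ)) (w : ℕ) (hw : 0 < w)
    (h : b * tt w * b⁻¹ ∈ Gamma0 21) :
    ((g : ℍ → ℂ) ∣[(2 : ℤ)] b) =O[atImInfty] ex (1 / w) := by
  set F : ℍ → ℂ := (g : ℍ → ℂ) ∣[(2 : ℤ)] b with hF
  have h0 : IsZeroAtImInfty F := CuspFormClass.zero_at_infty_slash g b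
  have hhol : MDiff F := (CuspForm.translate g ((b : SL(2, ℤ)) : GL (Fin 2) ℝ)).holo'
  have hinv : F ∣[(2 : ℤ)] tt w = F := by
    rw [hF, ← SlashAction.slash_mul]
    have h1 : b * tt w = (b * tt w * b⁻¹) * b := by group
    rw [h1, SlashAction.slash_mul]
    congr 1
    exact SlashInvariantFormClass.slash_action_eq g _ ((mem_GG _).mpr h)
  have key : ∀ τ σ : ℍ, (σ : ℂ) = τ + w → F σ = F τ := by
    intro τ σ hs
    have h1 := congrFun hinv τ
    rw [slash_tt] at h1
    rw [← h1]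
    congr 1
    ext
    rw [hs, tt_coe]
    simp
  have hper : Function.Periodic (F ∘ ofComplex) ((w : ℝ) : ℂ) := by
    intro z
    by_cases hz : 0 < Complex.im z
    · have h2 : 0 < Complex.im (z + ((w : ℝ) : ℂ)) := by simpa using hz
      simp only [Function.comp_apply, ofComplex_apply_of_im_pos h2, ofComplex_apply_of_im_pos hz]
      apply key
      simp
    · have h1 : Complex.im z ≤ 0 := not_lt.mp hz
      have h2 : Complex.im (z + ((w : ℝ) : ℂ)) ≤ 0 := by simpa using h1
      simp only [Function.comp_apply, ofComplex_apply_of_im_nonpos h2,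
        ofComplex_apply_of_im_nonpos h1]
  have hb : IsBoundedAtImInfty F := h0.isBoundedAtImInfty
  have := IsZeroAtImInfty.exp_decay_atImInfty (f := F) h0 (by exact_mod_cast hw : (0 : ℝ) < w)
    hper hhol hb
  refine this.congr (fun _ => rfl) (fun τ => ?_)
  unfold ex
  congr 1
  ring

theorem shift_growth {F : ℍ → ℂ} {c : ℝ} (h : F =O[atImInfty] ex c) (j : ℤ) :
    (F ∣[(2 : ℤ)] tt j) =O[atImInfty] ex c := by
  have h1 := h.comp_tendsto (tt_tendsto j)
  refine h1.congr (fun z => ?_) (fun z => ?_)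
  · exact (slash_tt F j z).symm
  · show ex c (tt j • z) = ex c z
    unfold ex
    rw [tt_im]

/-- growth at infinity -/
theorem inf_growth (g : CuspForm GG 2) (h1 : (qExpansion 1 g).coeff 1 = 0) :
    (g : ℍ → ℂ) =O[atImInfty] ex 2 := by
  have hΓ : (1 : ℝ) ∈ GG.strictPeriods := by
    rw [strictPeriods_Gamma0]
    exact AddSubgroup.mem_zmultiples 1
  have ha := ModularFormClass.analyticAt_cuspFunction_zero g one_pos hΓ
  have hs := fun τ => ModularForm.hasSum_qExpansion g one_pos hΓ τ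
  have h2 := hasFPowerSeriesOnBall_cuspFunction one_pos ha hs
  have h0 : (qExpansion 1 g).coeff 0 = 0 := CuspFormClass.qExpansion_coeff_zero g one_pos hΓ
  have h3 := h2.hasFPowerSeriesAt.isBigO_sub_partialSum_pow 2
  have h4 : (cuspFunction 1 g) =O[𝓝 0] fun y : ℂ => ‖y‖ ^ 2 := by
    refine h3.congr (fun y => ?_) (fun _ => rfl)
    simp [FormalMultilinearSeries.partialSum, Finset.sum_range_succ, h0, h1,
      FormalMultilinearSeries.ofScalars]
  have h5 := h4.comp_tendsto (qParam_tendsto_atImInfty one_pos)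
  refine h5.congr (fun τ => ?_) (fun τ => ?_)
  · exact SlashInvariantFormClass.eq_cuspFunction g τ hΓ one_ne_zero
  · simp only [Function.comp_apply]
    rw [Function.Periodic.norm_qParam, ex, ← Real.exp_nat_mul]
    congr 1
    simp
    ring

/-- the decay rates -/
def rt : II → ℝ
  | .inl _ => 2
  | .inr (.inl _) => 1 / 21
  | .inr (.inr (.inl _)) => 1 / 7
  | .inr (.inr (.inr _)) => 1 / 3

theorem rt_sum : ∑ i : II, rt i = 5 := by
  simp [Fintype.sum_sum_type, rt]
  norm_num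

theorem tr_growth (g : CuspForm GG 2) (h1 : (qExpansion 1 g).coeff 1 = 0) (i : II) :
    tr g i =O[atImInfty] ex (rt i) := by
  rcases i with _ | j | j | j
  · have h2 : tr g (.inl ()) = g := by
      unfold tr rep
      exact SlashAction.slash_one _ _
    rw [h2]
    exact inf_growth g h1
  · have h2 : tr g (.inr (.inl j)) = ((g : ℍ → ℂ) ∣[(2 : ℤ)] bb0) ∣[(2 : ℤ)] tt ((j : ℕ) : ℤ) := by
      unfold tr rep
      exact SlashAction.slash_mul _ _ _ _
    rw [h2]
    apply shift_growth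
    refine base_growth g bb0 21 (by norm_num) ?_
    rw [mem_iff]
    simp [bb0, tt, Matrix.mul_apply, Fin.sum_univ_two]
    try decide
  · have h2 : tr g (.inr (.inr (.inl j))) =
        ((g : ℍ → ℂ) ∣[(2 : ℤ)] bb3) ∣[(2 : ℤ)] tt ((j : ℕ) : ℤ) := by
      unfold tr rep
      exact SlashAction.slash_mul _ _ _ _
    rw [h2]
    apply shift_growth
    refine base_growth g bb3 7 (by norm_num) ?_
    rw [mem_iff]
    simp [bb3, tt, Matrix.mul_apply, Fin.sum_univ_two]
    try decide
  · have h2 : tr g (.inr (.inr (.inr j))) =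
        ((g : ℍ → ℂ) ∣[(2 : ℤ)] bb7) ∣[(2 : ℤ)] tt ((j : ℕ) : ℤ) := by
      unfold tr rep
      exact SlashAction.slash_mul _ _ _ _
    rw [h2]
    apply shift_growth
    refine base_growth g bb7 3 (by norm_num) ?_
    rw [mem_iff]
    simp [bb7, tt, Matrix.mul_apply, Fin.sum_univ_two]
    try decide

theorem prod_growth (g : CuspForm GG 2) (h1 : (qExpansion 1 g).coeff 1 = 0) :
    (fun z => ModularForm.norm 𝒮ℒ g z) =O[atImInfty] ex 5 := by
  have h2 : (fun z => ∏ i : II, tr g i z) =O[atImInfty] fun z => ∏ i : II, ex (rt i) z := by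
    have := Asymptotics.IsBigO.finsetProd (s := Finset.univ) (f := fun i => tr g i)
      (g := fun i => ex (rt i)) (l := atImInfty) (fun i _ => tr_growth g h1 i)
    simpa using this
  refine h2.congr (fun z => (norm_eq g z).symm) (fun z => ?_)
  unfold ex
  rw [← Real.exp_sum, ← rt_sum]
  congr 1
  have : ∀ i : II, -(2 * Real.pi * rt i) * z.im = (-(2 * Real.pi) * z.im) * rt i := by
    intro i
    ring
  simp_rw [this]
  rw [← Finset.mul_sum]
  ring

theorem norm_trans (g : CuspForm GG 2) (γ : SL(2, ℤ)) (z : ℍ) :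
    ModularForm.norm 𝒮ℒ g (γ • z) =
      denom (γ : GL (Fin 2) ℝ) z ^ 64 * ModularForm.norm 𝒮ℒ g z := by
  have h1 := SlashInvariantForm.slash_action_eqn'' (ModularForm.norm 𝒮ℒ g)
    (⟨γ, rfl⟩ : mapGL ℝ γ ∈ 𝒮ℒ) z
  have h2 : (2 * (Nat.card (𝒮ℒ ⧸ (GG.subgroupOf 𝒮ℒ)) : ℤ)) = ((64 : ℕ) : ℤ) := by
    rw [card_cs]
    norm_num
  have h3 : denom (γ : GL (Fin 2) ℝ) z ^ (2 * (Nat.card (𝒮ℒ ⧸ (GG.subgroupOf 𝒮ℒ)) : ℤ)) =
      denom (γ : GL (Fin 2) ℝ) z ^ 64 := by
    rw [h2, zpow_natCast]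
  rw [← h3]
  exact h1

theorem disc_trans (γ : SL(2, ℤ)) (z : ℍ) :
    discriminant (γ • z) = denom (γ : GL (Fin 2) ℝ) z ^ 12 * discriminant z := by
  have h1 := SlashInvariantForm.slash_action_eqn'' CuspForm.discriminant
    (⟨γ, rfl⟩ : mapGL ℝ γ ∈ 𝒮ℒ) z
  exact_mod_cast h1

theorem disc5 : ex 5 =O[atImInfty] fun z => discriminant z ^ 5 := by
  have h1 := exp_isBigO_discriminant.pow 5
  refine h1.congr (fun z => ?_) (fun _ => rfl)
  rw [ex, ← Real.exp_nat_mul]
  congr 1
  push_cast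
  ring

theorem slash4 (g : CuspForm GG 2) (γ : SL(2, ℤ)) :
    (fun z => ModularForm.norm 𝒮ℒ g z / discriminant z ^ 5) ∣[(4 : ℤ)] γ =
      fun z => ModularForm.norm 𝒮ℒ g z / discriminant z ^ 5 := by
  funext z
  rw [ModularForm.SL_slash_apply]
  have hd : denom (γ : GL (Fin 2) ℝ) z ≠ 0 := denom_ne_zero _ _
  have hD : discriminant z ≠ 0 := discriminant_ne_zero z
  rw [norm_trans, disc_trans]
  have e : denom (γ : GL (Fin 2) ℝ) z ^ (-4 : ℤ) = (denom (γ : GL (Fin 2) ℝ) z ^ 4)⁻¹ := by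
    rw [zpow_neg]
    rfl
  rw [e]
  field_simp

/-- the norm divided by the fifth power of the discriminant -/
def MM4 (g : CuspForm GG 2) (h1 : (qExpansion 1 g).coeff 1 = 0) : ModularForm 𝒮ℒ 4 where
  toFun z := ModularForm.norm 𝒮ℒ g z / discriminant z ^ 5
  slash_action_eq' := by
    rintro _ ⟨γ, rfl⟩
    exact slash4 g γ
  holo' := by
    have h2 : MDiff (fun z => discriminant z ^ 5) := by
      have := CuspForm.discriminant.holo'
      exact MDifferentiable.pow this 5
    exact MDifferentiable.div (ModularFormClass.holo (ModularForm.norm 𝒮ℒ g)) h2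
      (fun z => pow_ne_zero 5 (discriminant_ne_zero z))
  bdd_at_cusps' {c} hc := by
    rw [OnePoint.isBoundedAt_iff_forall_SL2Z hc]
    intro γ _
    rw [slash4 g γ, IsBoundedAtImInfty, BoundedAtFilter]
    exact (Asymptotics.div_isBoundedUnder_of_isBigO
      ((prod_growth g h1).trans disc5)).isBigO_one ℝ

/-- two of the factors -/
def ia : II := .inr (.inl 5)
def ib : II := .inr (.inl 17)

theorem D_norm_rho (g : CuspForm GG 2) : D (fun z => ModularForm.norm 𝒮ℒ g z) rho = 0 := by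
  have e : (fun z => ModularForm.norm 𝒮ℒ g z) = tr g ia * (tr g ib *
      ∏ i ∈ (Finset.univ.erase ia).erase ib, tr g i) := by
    funext z
    have hb : ib ∈ Finset.univ.erase ia := by decide
    rw [norm_eq g z, ← Finset.mul_prod_erase Finset.univ (fun i => tr g i z) (Finset.mem_univ ia),
      ← Finset.mul_prod_erase _ (fun i => tr g i z) hb]
    simp
  have hr : MDiff (∏ i ∈ (Finset.univ.erase ia).erase ib, tr g i) := by
    exact MDifferentiable.prod (fun i _ => tr_mdiff g i)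
  have h1 : tr g ia rho = 0 := tr_rho g 5 (Or.inl rfl)
  have h2 : tr g ib rho = 0 := tr_rho g 17 (Or.inr rfl)
  rw [e, normalizedDerivOfComplex_mul _ _ (tr_mdiff g ia) ((tr_mdiff g ib).mul hr)]
  simp [h1, h2]

/-- DIM: `dim S₂(Γ₀(21)) ≤ 1` -/
theorem dim21 (g : CuspForm (Gamma0 21 : Subgroup (GL (Fin 2) ℝ)) 2)
    (h1 : (qExpansion 1 g).coeff 1 = 0) : ∀ z : ℍ, g z = 0 := by
  obtain ⟨k, hk⟩ : ∃ k, k • E₄ = MM4 g h1 :=
    (finrank_eq_one_iff_of_nonzero' E₄ (E_ne_zero _ ⟨2, rfl⟩)).mp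
      (Module.rank_eq_one_iff_finrank_eq_one.mp levelOne_weight_four_rank_one) _
  have h2 : ∀ z, ModularForm.norm 𝒮ℒ g z = k * E₄ z * discriminant z ^ 5 := by
    intro z
    have h3 : (k • E₄ : ModularForm 𝒮ℒ 4) z = MM4 g h1 z := by rw [hk]
    have h4 : k * E₄ z = ModularForm.norm 𝒮ℒ g z / discriminant z ^ 5 := h3
    rw [h4]
    have hD : discriminant z ≠ 0 := discriminant_ne_zero z
    field_simp
  have hE : MDiff (E₄ : ℍ → ℂ) := ModularFormClass.holo E₄
  have hD5 : MDiff (fun z : ℍ => k * discriminant z ^ 5) := by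
    have := CuspForm.discriminant.holo'
    exact (mdifferentiable_const).mul (MDifferentiable.pow this 5)
  have h5 : (fun z => ModularForm.norm 𝒮ℒ g z) = (E₄ : ℍ → ℂ) * (fun z : ℍ => k * discriminant z ^ 5) := by
    funext z
    rw [h2 z]
    simp only [Pi.mul_apply]
    ring
  have h6 := D_norm_rho g
  rw [h5, normalizedDerivOfComplex_mul _ _ hE hD5] at h6
  simp only [Pi.add_apply, Pi.mul_apply, E4_rho, zero_mul, add_zero] at h6
  have h7 : k = 0 := by
    rcases mul_eq_zero.mp h6 with h | h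
    · exact absurd h DE4_rho
    · rcases mul_eq_zero.mp h with h | h
      · exact h
      · exact absurd h (pow_ne_zero 5 (discriminant_ne_zero _))
  have h8 : ModularForm.norm 𝒮ℒ g = 0 := by
    ext z
    rw [h2 z, h7]
    simp
  have h9 := (ModularForm.norm_eq_zero_iff 𝒮ℒ g).mp h8
  intro z
  exact congrFun h9 z

end

end Pool.Agent.Run7.h135.P21
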