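import Pool.Agent.Run7.h135.P15.T7

/-!
# The ambiguous conditions and the absence of classes of order four: a general sign `-k`
-/

set_option autoImplicit false

namespace Pool.Agent.Run7.h135.P21

open Finset
open Pool.Agent.N969.P15 (Qc)
open Pool.Agent.Run7.h135.P15 (la Bx mem_Bx Bx_sub prod_Bx)
open Pool.Agent.Y703.CQ (nr)
open Pool.Agent.N916.GB (Gv Gv_iff_rank Lm Lm_mulVec Ev Qc_iff z2 z2_add_self nr_recip sum_uu Po)
open Pool.Agent.N973.ND (uu)

open scoped Classical

noncomputable section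

/-- the right side -/
def ek (k : ℕ) (q : ℕ) : ZMod 2 := if jacobiSym (-(k : ℤ)) q = 1 then 0 else 1

/-- the local conditions for the ambiguous form of the factorization `n = b c` -/
def Slk (k b c : ℕ) : Prop := (∀ p ∈ c.primeFactors, jacobiSym (-(k : ℤ) * (b : ℤ)) p = 1) ∧
  ∀ p ∈ b.primeFactors, jacobiSym (-(k : ℤ) * (c : ℤ)) p = 1

theorem jac_k_ne {k q : ℕ} (hq : q.Prime) (hk : ¬ q ∣ k) : jacobiSym (-(k : ℤ)) q ≠ 0 := by
  rw [Ne, jacobiSym.eq_zero_iff, not_and_or, not_not, not_not]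
  right
  have e1 : Int.gcd (-(k : ℤ)) q = Nat.gcd k q := by
    rw [Int.gcd_eq_natAbs, Int.natAbs_neg, Int.natAbs_natCast, Int.natAbs_natCast]
  rw [e1]
  exact ((Nat.Prime.coprime_iff_not_dvd hq).mpr hk).symm

theorem cond_iff {k q : ℕ} (hq : q.Prime) (hq2 : q ≠ 2) (hk : ¬ q ∣ k) (s : Finset ℕ)
    (hs : ∀ p ∈ s, p.Prime ∧ p ≠ q) :
    jacobiSym (-(k : ℤ) * ((∏ p ∈ s, p : ℕ) : ℤ)) q = 1 ↔ ek k q + ∑ p ∈ s, nr q p = 0 := by
  rw [jacobiSym.mul_left, Pool.Agent.N916.GB.jac_prod hq hq2 s hs, ek]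
  have h5 := jac_k_ne hq hk
  have h6 : jacobiSym (-(k : ℤ)) q = 1 ∨ jacobiSym (-(k : ℤ)) q = -1 :=
    (jacobiSym.trichotomy _ _).resolve_left h5
  rcases h6 with h6 | h6 <;> rcases z2 (∑ p ∈ s, nr q p) with h7 | h7 <;> rw [h6, h7]
  · simp
  · simp
  · simp
  · simp
    decide


theorem Sl_iff {k n : ℕ} (hodd : n % 2 = 1) (h5 : Nat.Coprime k n)
    (x : n.primeFactors → ZMod 2) :
    Slk k (∏ p ∈ Bx x, p) (∏ p ∈ n.primeFactors \ Bx x, p) ↔
      ∀ q : n.primeFactors, Ev (fun q p : n.primeFactors => nr (q : ℕ) (p : ℕ)) x q = ek k q := by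
  have hpr : ∀ p ∈ n.primeFactors, p.Prime ∧ p ≠ 2 ∧ ¬ p ∣ k := by
    intro p hp
    refine ⟨Nat.prime_of_mem_primeFactors hp, ?_, ?_⟩
    · rintro rfl
      have := Nat.dvd_of_mem_primeFactors hp
      omega
    · intro hpk
      have h1 : p ∣ Nat.gcd k n := Nat.dvd_gcd hpk (Nat.dvd_of_mem_primeFactors hp)
      rw [Nat.Coprime] at h5
      rw [h5] at h1
      exact (Nat.prime_of_mem_primeFactors hp).one_lt.ne' (Nat.dvd_one.mp h1)
  have f1 : (∏ p ∈ Bx x, p).primeFactors = Bx x :=
    Nat.primeFactors_prod fun p hp => (hpr p (Bx_sub x hp)).1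
  have f2 : (∏ p ∈ n.primeFactors \ Bx x, p).primeFactors = n.primeFactors \ Bx x :=
    Nat.primeFactors_prod fun p hp => (hpr p (sdiff_subset hp)).1
  have hev0 : ∀ q : n.primeFactors, x q = 0 →
      Ev (fun q p : n.primeFactors => nr (q : ℕ) (p : ℕ)) x q = ∑ p ∈ Bx x, nr q p := by
    intro q hq
    unfold Ev
    have e1 : ∑ p ∈ Bx x, nr q p = ∑ p ∈ n.primeFactors, if p ∈ Bx x then nr q p else 0 := by
      rw [← sum_filter]
      congr 1
      ext p
      rw [mem_filter]
      exact ⟨fun h => ⟨Bx_sub x h, h⟩, fun h => h.2⟩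
    rw [e1, ← sum_coe_sort n.primeFactors]
    apply sum_congr rfl
    intro p _
    rw [hq, add_zero]
    by_cases h : x p = 1
    · rw [if_pos ((mem_Bx x p).mpr h), h, one_mul]
    · rw [if_neg (fun g => h ((mem_Bx x p).mp g)), (z2 (x p)).resolve_right h, zero_mul]
  have hev1 : ∀ q : n.primeFactors, x q = 1 →
      Ev (fun q p : n.primeFactors => nr (q : ℕ) (p : ℕ)) x q =
        ∑ p ∈ n.primeFactors \ Bx x, nr q p := by
    intro q hq
    unfold Ev
    have e1 : ∑ p ∈ n.primeFactors \ Bx x, nr q p =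
        ∑ p ∈ n.primeFactors, if p ∈ Bx x then 0 else nr q p := by
      rw [← sum_filter_add_sum_filter_not n.primeFactors (fun p => p ∈ Bx x)]
      rw [sum_congr rfl (fun p hp => if_pos (mem_filter.mp hp).2), sum_const_zero, zero_add,
        sum_congr rfl (fun p hp => if_neg (mem_filter.mp hp).2)]
      congr 1
      ext p
      rw [mem_filter, mem_sdiff]
    rw [e1, ← sum_coe_sort n.primeFactors]
    apply sum_congr rfl
    intro p _
    rw [hq]
    by_cases h : x p = 1
    · rw [if_pos ((mem_Bx x p).mpr h), h, z2_add_self, zero_mul]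
    · rw [if_neg (fun g => h ((mem_Bx x p).mp g)), (z2 (x p)).resolve_right h, zero_add, one_mul]
  have key : ∀ a b : ZMod 2, a + b = 0 ↔ b = a := by decide
  rw [Slk, f1, f2]
  constructor
  · rintro ⟨g1, g2⟩ q
    rcases z2 (x q) with hq | hq
    · rw [hev0 q hq]
      have hqB : (q : ℕ) ∉ Bx x := by
        rw [mem_Bx, hq]
        decide
      have := g1 q (mem_sdiff.mpr ⟨q.2, hqB⟩)
      rw [cond_iff (hpr q q.2).1 (hpr q q.2).2.1 (hpr q q.2).2.2 _
        (fun p hp => ⟨(hpr p (Bx_sub x hp)).1, fun h => hqB (h ▸ hp)⟩), key] at this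
      exact this
    · rw [hev1 q hq]
      have hqB : (q : ℕ) ∈ Bx x := (mem_Bx x q).mpr hq
      have := g2 q hqB
      rw [cond_iff (hpr q q.2).1 (hpr q q.2).2.1 (hpr q q.2).2.2 _
        (fun p hp => ⟨(hpr p (sdiff_subset hp)).1, fun h => (mem_sdiff.mp hp).2 (h ▸ hqB)⟩),
        key] at this
      exact this
  · intro g
    constructor
    · intro p hp
      have hpn := (mem_sdiff.mp hp).1
      have hpB := (mem_sdiff.mp hp).2
      have hxp : x ⟨p, hpn⟩ = 0 :=
        (z2 _).resolve_right fun h => hpB ((mem_Bx x ⟨p, hpn⟩).mpr h)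
      have := g ⟨p, hpn⟩
      rw [hev0 _ hxp] at this
      rw [cond_iff (hpr p hpn).1 (hpr p hpn).2.1 (hpr p hpn).2.2 _
        (fun r hr => ⟨(hpr r (Bx_sub x hr)).1, fun h => hpB (h ▸ hr)⟩), key]
      exact this
    · intro p hp
      have hpn := Bx_sub x hp
      have hxp : x ⟨p, hpn⟩ = 1 := (mem_Bx x ⟨p, hpn⟩).mp hp
      have := g ⟨p, hpn⟩
      rw [hev1 _ hxp] at this
      rw [cond_iff (hpr p hpn).1 (hpr p hpn).2.1 (hpr p hpn).2.2 _
        (fun r hr => ⟨(hpr r (sdiff_subset hr)).1, fun h => (mem_sdiff.mp hr).2 (h ▸ hp)⟩), key]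
      exact this

theorem Sl_comm (k b c : ℕ) : Slk k b c ↔ Slk k c b := ⟨fun h => ⟨h.2, h.1⟩, fun h => ⟨h.2, h.1⟩⟩

theorem t7g {k n : ℕ} (hn : Squarefree n) (h4 : n % 4 = 3) (h5 : Nat.Coprime k n)
    (hkn : jacobiSym (-(k : ℤ)) n = 1) :
    (Odd (n.divisors.filter fun b => b < n / b ∧ Slk k b (n / b)).card ↔ Qc n) := by
  have h0 : 0 < n := by omega
  have hodd : n % 2 = 1 := by omega
  have hpr : ∀ p ∈ n.primeFactors, Po p := by
    intro p hp
    refine ⟨Nat.prime_of_mem_primeFactors hp, ?_⟩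
    rintro rfl
    have := Nat.dvd_of_mem_primeFactors hp
    omega
  obtain ⟨p0, hp0, hp0n⟩ := Nat.exists_prime_and_dvd (show n ≠ 1 by omega)
  have : Nonempty n.primeFactors := ⟨⟨p0, Nat.mem_primeFactors.mpr ⟨hp0, hp0n, h0.ne'⟩⟩⟩
  rw [Qc_iff hn h4]
  -- the sum of the right side
  have he : ∑ q : n.primeFactors, ek k q = 0 := by
    rw [sum_coe_sort n.primeFactors (ek k)]
    have h1 : ∏ p ∈ n.primeFactors, jacobiSym (-(k : ℤ)) p = 1 := by
      have key : ∀ s : Finset ℕ, (∀ p ∈ s, p ≠ 0) →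
          jacobiSym (-(k : ℤ)) (∏ p ∈ s, p) = ∏ p ∈ s, jacobiSym (-(k : ℤ)) p := by
        intro s
        induction s using Finset.induction_on with
        | empty => simp
        | insert p s hp ih =>
          intro hs
          rw [prod_insert hp, prod_insert hp]
          have h1 : p ≠ 0 := hs p (mem_insert_self _ _)
          have h2 : ∏ p ∈ s, p ≠ 0 := by
            rw [prod_ne_zero_iff]
            intro q hq
            exact hs q (mem_insert_of_mem hq)
          rw [jacobiSym.mul_right' _ h1 h2, ih (fun q hq => hs q (mem_insert_of_mem hq))]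
      rw [← key _ fun p hp => (Nat.prime_of_mem_primeFactors hp).ne_zero,
        Nat.prod_primeFactors_of_squarefree hn, hkn]
    have h2 : ∀ s : Finset ℕ, (∀ p ∈ s, jacobiSym (-(k : ℤ)) p = 1 ∨ jacobiSym (-(k : ℤ)) p = -1) →
        ∏ p ∈ s, jacobiSym (-(k : ℤ)) p = if ∑ p ∈ s, ek k p = 0 then 1 else -1 := by
      intro s
      induction s using Finset.induction_on with
      | empty => simp
      | insert p s hp ih =>
        intro hs
        rw [prod_insert hp, sum_insert hp, ih fun q hq => hs q (mem_insert_of_mem hq)]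
        rcases hs p (mem_insert_self _ _) with h6 | h6 <;>
          rcases z2 (∑ p ∈ s, ek k p) with h7 | h7 <;> rw [ek, h6, h7]
        · simp
        · simp
        · simp
        · have : (1 : ZMod 2) + 1 = 0 := by decide
          simp [this]
    have h3 := h2 n.primeFactors (by
      intro p hp
      refine (jacobiSym.trichotomy _ _).resolve_left ?_
      refine jac_k_ne (Nat.prime_of_mem_primeFactors hp) fun hpk => ?_
      have h1 : p ∣ Nat.gcd k n := Nat.dvd_gcd hpk (Nat.dvd_of_mem_primeFactors hp)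
      rw [Nat.Coprime] at h5
      rw [h5] at h1
      exact (Nat.prime_of_mem_primeFactors hp).one_lt.ne' (Nat.dvd_one.mp h1))
    rw [h1] at h3
    by_contra h8
    rw [if_neg h8] at h3
    norm_num at h3
  -- the sum of the rows
  have hu : ∑ q : n.primeFactors, uu q = 1 := by
    rw [sum_coe_sort n.primeFactors uu]
    have h6 := sum_uu n.primeFactors hpr
    rw [Nat.prod_primeFactors_of_squarefree hn, h4] at h6
    rcases z2 (∑ p ∈ n.primeFactors, uu p) with h7 | h7
    · rw [if_pos h7] at h6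
      omega
    · exact h7
  have hN : ∀ x, ∑ q, Ev (fun q p : n.primeFactors => nr (q : ℕ) (p : ℕ)) x q = 0 := by
    intro x
    unfold Ev
    have e1 : ∑ q : n.primeFactors, ∑ p : n.primeFactors, (x p + x q) * nr (q : ℕ) (p : ℕ) =
        ∑ q : n.primeFactors, ∑ p : n.primeFactors, x p * (nr (q : ℕ) (p : ℕ) + nr (p : ℕ) (q : ℕ)) := by
      have e2 : ∑ q : n.primeFactors, ∑ p : n.primeFactors, x p * nr (p : ℕ) (q : ℕ) =
          ∑ q : n.primeFactors, ∑ p : n.primeFactors, x q * nr (q : ℕ) (p : ℕ) := sum_comm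
      simp only [add_mul, mul_add, sum_add_distrib]
      rw [e2]
    rw [e1, sum_comm]
    have e3 : ∀ p : n.primeFactors, ∑ q : n.primeFactors,
        x p * (nr (q : ℕ) (p : ℕ) + nr (p : ℕ) (q : ℕ)) = 0 := by
      intro p
      rw [← mul_sum]
      have e4 : ∑ q : n.primeFactors, (nr (q : ℕ) (p : ℕ) + nr (p : ℕ) (q : ℕ)) =
          ∑ q : n.primeFactors, (uu p * uu q + if q = p then uu p else 0) := by
        apply sum_congr rfl
        intro q _
        by_cases h : q = p
        · rw [if_pos h, h, z2_add_self, Pool.Agent.N916.GB.z2_sq, z2_add_self]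
        · rw [if_neg h, add_zero, add_comm,
            nr_recip (hpr p p.2) (hpr q q.2) (fun g => h (Subtype.ext g.symm))]
      rw [e4, sum_add_distrib, ← mul_sum, hu, sum_ite_eq' univ p, if_pos (mem_univ _), mul_one,
        z2_add_self, mul_zero]
    exact sum_eq_zero fun p _ => e3 p
  rw [← la _ _ he hN]
  -- counting
  set D := n.divisors.filter fun b => Slk k b (n / b) with hD
  have hDlt : (n.divisors.filter fun b => b < n / b ∧ Slk k b (n / b)) = D.filter fun b => b < n / b := by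
    ext b
    rw [hD, mem_filter, mem_filter, mem_filter]
    tauto
  have hsplit := card_filter_add_card_filter_not (s := D) (fun b => b < n / b)
  have hrefl : (D.filter fun b => ¬ b < n / b).card = (D.filter fun b => b < n / b).card := by
    have hdd : ∀ b ∈ n.divisors, b * (n / b) = n ∧ n / (n / b) = b ∧ 0 < b := by
      intro b hb
      rw [Nat.mem_divisors] at hb
      have hb0 : 0 < b := Nat.pos_of_dvd_of_pos hb.1 h0
      refine ⟨Nat.mul_div_cancel' hb.1, Nat.div_div_self hb.1 h0.ne', hb0⟩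
    have hne : ∀ b ∈ n.divisors, b ≠ n / b := by
      intro b hb h
      have h6 := (hdd b hb).1
      rw [← h] at h6
      have h7 := hn b ⟨1, by rw [mul_one, h6]⟩
      rw [Nat.isUnit_iff] at h7
      rw [h7] at h6
      omega
    refine card_bij' (fun b _ => n / b) (fun b _ => n / b) ?_ ?_ ?_ ?_
    · intro b hb
      rw [mem_filter, hD, mem_filter] at hb ⊢
      obtain ⟨⟨g1, g2⟩, g3⟩ := hb
      obtain ⟨k1, k2, k3⟩ := hdd b g1
      rw [k2]
      refine ⟨⟨Nat.mem_divisors.mpr ⟨⟨b, by rw [mul_comm]; exact k1.symm⟩, h0.ne'⟩,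
        (Sl_comm _ _ _).mp g2⟩, ?_⟩
      have := hne b g1
      omega
    · intro b hb
      rw [mem_filter, hD, mem_filter] at hb ⊢
      obtain ⟨⟨g1, g2⟩, g3⟩ := hb
      obtain ⟨k1, k2, k3⟩ := hdd b g1
      rw [k2]
      exact ⟨⟨Nat.mem_divisors.mpr ⟨⟨b, by rw [mul_comm]; exact k1.symm⟩, h0.ne'⟩,
        (Sl_comm _ _ _).mp g2⟩, by omega⟩
    · intro b hb
      rw [mem_filter, hD, mem_filter] at hb
      exact (hdd b hb.1.1).2.1
    · intro b hb
      rw [mem_filter, hD, mem_filter] at hb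
      exact (hdd b hb.1.1).2.1
  have hbij : D.card = (univ.filter fun x : n.primeFactors → ZMod 2 =>
      ∀ q, Ev (fun q p : n.primeFactors => nr (q : ℕ) (p : ℕ)) x q = ek k q).card := by
    have hquot : ∀ x : n.primeFactors → ZMod 2,
        n / (∏ p ∈ Bx x, p) = ∏ p ∈ n.primeFactors \ Bx x, p := by
      intro x
      have hpos : 0 < ∏ p ∈ Bx x, p :=
        prod_pos fun p hp => (hpr p (Bx_sub x hp)).1.pos
      exact Nat.div_eq_of_eq_mul_right hpos (prod_Bx hn x).symm
    have hpf : ∀ x : n.primeFactors → ZMod 2, (∏ p ∈ Bx x, p).primeFactors = Bx x := fun x =>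
      Nat.primeFactors_prod fun p hp => (hpr p (Bx_sub x hp)).1
    have hinv : ∀ b ∈ n.divisors, (∏ p ∈ Bx (fun p : n.primeFactors =>
        if (p : ℕ) ∣ b then (1 : ZMod 2) else 0), p) = b := by
      intro b hb
      rw [Nat.mem_divisors] at hb
      have hBb : Bx (fun p : n.primeFactors => if (p : ℕ) ∣ b then (1 : ZMod 2) else 0) =
          b.primeFactors := by
        ext p
        rw [Bx, mem_filter]
        constructor
        · rintro ⟨g1, g2, g3⟩
          have g4 : p ∣ b := by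
            by_contra g5
            rw [if_neg g5] at g3
            exact zero_ne_one g3
          refine Nat.mem_primeFactors.mpr ⟨(hpr p g1).1, g4, ?_⟩
          rintro rfl
          exact hb.2 (zero_dvd_iff.mp hb.1)
        · intro g0
          obtain ⟨g1, g2, g3⟩ := Nat.mem_primeFactors.mp g0
          have g4 : p ∈ n.primeFactors := Nat.mem_primeFactors.mpr ⟨g1, g2.trans hb.1, hb.2⟩
          exact ⟨g4, g4, if_pos g2⟩
      rw [hBb]
      exact Nat.prod_primeFactors_of_squarefree (hn.squarefree_of_dvd hb.1)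
    refine card_bij' (fun b _ => fun p : n.primeFactors => if (p : ℕ) ∣ b then (1 : ZMod 2) else 0)
      (fun x _ => ∏ p ∈ Bx x, p) ?_ ?_ ?_ ?_
    · intro b hb
      rw [hD, mem_filter] at hb
      rw [mem_filter]
      refine ⟨mem_univ _, ?_⟩
      rw [← Sl_iff hodd h5, ← hquot, hinv b hb.1]
      exact hb.2
    · intro x hx
      rw [mem_filter, ← Sl_iff hodd h5, ← hquot] at hx
      rw [hD, mem_filter, Nat.mem_divisors]
      exact ⟨⟨⟨_, (prod_Bx hn x).symm⟩, h0.ne'⟩, hx.2⟩
    · intro b hb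
      rw [hD, mem_filter] at hb
      exact hinv b hb.1
    · intro x hx
      funext p
      have h6 : (p : ℕ) ∣ ∏ p ∈ Bx x, p ↔ x p = 1 := by
        rw [← mem_Bx x p]
        constructor
        · intro h
          rw [← hpf x]
          exact Nat.mem_primeFactors.mpr ⟨(hpr p p.2).1, h,
            (prod_pos fun p hp => (hpr p (Bx_sub x hp)).1.pos).ne'⟩
        · intro h
          exact dvd_prod_of_mem _ h
      by_cases h7 : x p = 1
      · rw [if_pos (h6.mpr h7), h7]
      · rw [if_neg (fun g => h7 (h6.mp g)), (z2 (x p)).resolve_right h7]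
  rw [hDlt]
  have h12 : ∀ m, m = D.card → (Odd (D.filter fun b => b < n / b).card ↔ Odd (m / 2)) := by
    intro m hm
    rw [hm, ← hsplit, hrefl, ← two_mul, Nat.mul_div_cancel_left _ two_pos]
  apply h12
  rw [hbij]
  refine congrArg Finset.card (Finset.ext fun x => ?_)
  rw [mem_filter, mem_filter]
  have huniv : ∀ F : Fintype (n.primeFactors → ZMod 2), x ∈ @Finset.univ _ F := fun F =>
    @Finset.mem_univ _ F x
  exact ⟨fun h => ⟨huniv _, h.2⟩, fun h => ⟨huniv _, h.2⟩⟩

end

end Pool.Agent.Run7.h135.P21
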